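import Pool.Agent.Y508.PerimLow

/-!
# The string construction: the perimeter of the hull with a point
-/

set_option autoImplicit false
open MeasureTheory Metric Set Filter Topology

namespace Q188.Str

open Pool.Agent.Y508

/-- the perimeter of the hull of `K` and `x`, by Cauchy's formula -/
noncomputable def F (K : Set E2) (x : E2) : ℝ :=
  ∫ θ in (0 : ℝ)..(2 * Real.pi), max (hs K θ) (ip x θ)

theorem cont_max {K : Set E2} (hK : IsCompact K) (x : E2) :
    Continuous fun θ => max (hs K θ) (ip x θ) := (cont_hs hK).max (cont_ip x)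

theorem body_hull {K : Set E2} (hK : Body K) (x : E2) : Body (convexHull ℝ (insert x K)) := by
  refine ⟨?_, convex_convexHull _ _, ?_⟩
  · rw [convexHull_insert hK.ne, hK.cvx.convexHull_eq]
    have e : convexJoin ℝ {x} K =
        (fun p : ℝ × E2 => (1 - p.1) • x + p.1 • p.2) '' (Icc (0 : ℝ) 1 ×ˢ K) := by
      ext y
      rw [mem_convexJoin]
      constructor
      · rintro ⟨a, ha, b, hb, hy⟩
        rw [mem_singleton_iff] at ha
        subst ha
        rw [segment_eq_image] at hy
        obtain ⟨t, ht, rfl⟩ := hy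
        exact ⟨(t, b), ⟨ht, hb⟩, rfl⟩
      · rintro ⟨⟨t, b⟩, ⟨ht, hb⟩, rfl⟩
        refine ⟨x, rfl, b, hb, ?_⟩
        rw [segment_eq_image]
        exact ⟨t, ht, rfl⟩
    rw [e]
    apply (isCompact_Icc.prod hK.cpt).image
    fun_prop
  · exact hK.int.mono (interior_mono ((subset_insert _ _).trans (subset_convexHull _ _)))

theorem hs_hull {K : Set E2} (hK : Body K) (x : E2) (θ : ℝ) :
    hs (convexHull ℝ (insert x K)) θ = max (hs K θ) (ip x θ) := by
  apply le_antisymm
  · apply hs_le (body_hull hK x).ne
    intro y hy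
    have hconv : Convex ℝ {z : E2 | ip z θ ≤ max (hs K θ) (ip x θ)} := by
      intro a ha b hb s t hs0 ht hst
      simp only [mem_ofPred_eq] at ha hb ⊢
      rw [ip_add, ip_smul, ip_smul]
      calc s * ip a θ + t * ip b θ ≤ s * max (hs K θ) (ip x θ) + t * max (hs K θ) (ip x θ) := by
            gcongr
        _ = max (hs K θ) (ip x θ) := by rw [← add_mul, hst, one_mul]
    have hsub : insert x K ⊆ {z : E2 | ip z θ ≤ max (hs K θ) (ip x θ)} := by
      intro z hz
      rcases hz with hz | hz
      · rw [hz]
        exact le_max_right (hs K θ) (ip x θ)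
      · exact (le_hs hK.cpt hz θ).trans (le_max_left _ _)
    exact convexHull_min hsub hconv hy
  · apply max_le
    · exact hs_mono (body_hull hK x).cpt hK.ne ((subset_insert _ _).trans (subset_convexHull _ _)) θ
    · exact le_hs (body_hull hK x).cpt (subset_convexHull _ _ (mem_insert _ _)) θ

theorem perim_hull {K : Set E2} (hK : Body K) (x : E2) :
    ((Measure.hausdorffMeasure 1 : Measure E2) (frontier (convexHull ℝ (insert x K)))).toReal =
      F K x := by
  rw [perim_eq (body_hull hK x)]
  unfold W F
  congr 1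
  funext θ
  exact hs_hull hK x θ

theorem F_int {K : Set E2} (hK : IsCompact K) (x : E2) (a b : ℝ) :
    IntervalIntegrable (fun θ => max (hs K θ) (ip x θ)) volume a b :=
  (cont_max hK x).intervalIntegrable _ _

theorem W_le_F {K : Set E2} (hK : IsCompact K) (x : E2) : W K ≤ F K x := by
  apply intervalIntegral.integral_mono_on Real.two_pi_pos.le
    ((cont_hs hK).intervalIntegrable _ _) (F_int hK x _ _)
  intro θ _
  exact le_max_left _ _

theorem F_eq_W {K : Set E2} (hK : IsCompact K) {x : E2} (hx : x ∈ K) : F K x = W K := by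
  unfold F W
  congr 1
  funext θ
  exact max_eq_left (le_hs hK hx θ)

theorem F_lip {K : Set E2} (hK : IsCompact K) (x y : E2) :
    |F K x - F K y| ≤ 2 * Real.pi * ‖x - y‖ := by
  unfold F
  rw [← intervalIntegral.integral_sub (F_int hK x _ _) (F_int hK y _ _), ← Real.norm_eq_abs]
  refine (intervalIntegral.norm_integral_le_of_norm_le_const (C := ‖x - y‖) ?_).trans ?_
  · intro θ _
    rw [Real.norm_eq_abs]
    refine (abs_max_sub_max_le_max _ _ _ _).trans ?_
    simp only [sub_self, abs_zero]
    rw [← ip_sub]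
    exact max_le (norm_nonneg _) (abs_ip_le _ _)
  · rw [sub_zero, abs_of_pos Real.two_pi_pos, mul_comm]

theorem cont_F {K : Set E2} (hK : IsCompact K) : Continuous (F K) := by
  have : LipschitzWith (Real.toNNReal (2 * Real.pi)) (F K) := by
    apply LipschitzWith.of_dist_le_mul
    intro x y
    rw [Real.dist_eq, dist_eq_norm, Real.coe_toNNReal _ Real.two_pi_pos.le]
    exact F_lip hK x y
  exact this.continuous

theorem F_convex {K : Set E2} (hK : IsCompact K) (ℓ : ℝ) : Convex ℝ {x : E2 | F K x ≤ ℓ} := by
  intro x hx y hy s t hs0 ht hst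
  simp only [mem_ofPred_eq] at hx hy ⊢
  have h : F K (s • x + t • y) ≤ s * F K x + t * F K y := by
    unfold F
    rw [← intervalIntegral.integral_const_mul, ← intervalIntegral.integral_const_mul,
      ← intervalIntegral.integral_add ((F_int hK x _ _).const_mul _)
        ((F_int hK y _ _).const_mul _)]
    apply intervalIntegral.integral_mono_on Real.two_pi_pos.le (F_int hK _ _ _)
      (((F_int hK x _ _).const_mul _).add ((F_int hK y _ _).const_mul _))
    intro θ _
    apply max_le
    · calc Pool.Agent.Y508.hs K θ = s * Pool.Agent.Y508.hs K θ + t * Pool.Agent.Y508.hs K θ := by rw [← add_mul, hst, one_mul]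
        _ ≤ _ := by
          gcongr
          · exact le_max_left _ _
          · exact le_max_left _ _
    · rw [ip_add, ip_smul, ip_smul]
      gcongr
      · exact le_max_right _ _
      · exact le_max_right _ _
  calc F K (s • x + t • y) ≤ s * F K x + t * F K y := h
    _ ≤ s * ℓ + t * ℓ := by gcongr
    _ = ℓ := by rw [← add_mul, hst, one_mul]

/-- `F` in polar coordinates -/
theorem F_polar (K : Set E2) (r φ : ℝ) : F K (r • ev φ) =
    ∫ ψ in (-Real.pi)..Real.pi, max (hs K (φ + ψ)) (r * Real.cos ψ) := by
  unfold F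
  have hper : Function.Periodic (fun θ => max (hs K θ) (ip (r • ev φ) θ)) (2 * Real.pi) := by
    intro θ
    simp only [hs_two_pi, ip_two_pi]
  have h1 := hper.intervalIntegral_add_eq 0 (φ - Real.pi)
  rw [zero_add] at h1
  rw [h1]
  have h2 := intervalIntegral.integral_comp_add_left (a := -Real.pi) (b := Real.pi)
    (fun θ => max (hs K θ) (ip (r • ev φ) θ)) φ
  have e1 : φ + -Real.pi = φ - Real.pi := by ring
  have e2 : φ + Real.pi = φ - Real.pi + 2 * Real.pi := by ring
  rw [e1, e2] at h2
  rw [← h2]
  congr 1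
  funext ψ
  rw [ip_smul, ip_ev, add_sub_cancel_left]

theorem polar_int {K : Set E2} (hK : IsCompact K) (r φ a b : ℝ) :
    IntervalIntegrable (fun ψ => max (hs K (φ + ψ)) (r * Real.cos ψ)) volume a b := by
  apply Continuous.intervalIntegrable
  exact ((cont_hs hK).comp (continuous_const.add continuous_id)).max
    (continuous_const.mul Real.continuous_cos)

/-- the integral of the support function over the far half circle -/
noncomputable def N (K : Set E2) (φ : ℝ) : ℝ :=
  ∫ ψ in (Real.pi / 2)..(3 * Real.pi / 2), hs K (φ + ψ)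

theorem hs_shift_int (K : Set E2) (φ a b : ℝ) :
    ∫ ψ in a..b, hs K (φ + ψ) = ∫ ψ in (a + 2 * Real.pi)..(b + 2 * Real.pi), hs K (φ + ψ) := by
  rw [← intervalIntegral.integral_comp_add_right (fun ψ => hs K (φ + ψ)) (2 * Real.pi)]
  congr 1
  funext ψ
  rw [← add_assoc, hs_two_pi]

theorem hs_comp_int {K : Set E2} (hK : IsCompact K) (φ a b : ℝ) :
    IntervalIntegrable (fun ψ => hs K (φ + ψ)) volume a b := by
  apply Continuous.intervalIntegrable
  exact (cont_hs hK).comp (continuous_const.add continuous_id)

/-- the two outer arcs -/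
theorem outer_arcs {K : Set E2} (hK : IsCompact K) (φ α : ℝ) :
    (∫ ψ in (-Real.pi)..(-α), hs K (φ + ψ)) + ∫ ψ in α..Real.pi, hs K (φ + ψ) =
      ∫ ψ in α..(2 * Real.pi - α), hs K (φ + ψ) := by
  rw [hs_shift_int K φ (-Real.pi)]
  have e1 : -Real.pi + 2 * Real.pi = Real.pi := by ring
  have e2 : -α + 2 * Real.pi = 2 * Real.pi - α := by ring
  rw [e1, e2, add_comm, intervalIntegral.integral_add_adjacent_intervals (hs_comp_int hK _ _ _)
    (hs_comp_int hK _ _ _)]

end Q188.Str
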