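import Pool.Agent.Q188.Str.First

/-!
# The corner integral
-/

set_option autoImplicit false
open MeasureTheory Metric Set Filter Topology

namespace Q188.Str

open Pool.Agent.Y508

theorem corner {k : ℝ → ℝ} (hk : Continuous k) {M ρ : ℝ} (hM : 0 < M) (h0 : ∀ x, 0 ≤ k x)
    (h1 : ∀ x, k x ≤ M) (h2 : ∀ x, 0 ≤ x → |k x - k 0| ≤ M * x)
    (hρ : 2 * (M + 1) + M ^ 2 ≤ ρ) :
    |(∫ x in (0:ℝ)..(Real.pi / 2), max 0 (k x - ρ * Real.sin x)) - k 0 ^ 2 / (2 * ρ)| ≤
      M ^ 2 * (M + 1) / ρ ^ 2 := by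
  have hpi := Real.pi_pos
  have hpi3 := Real.pi_gt_three
  have hpi4 := Real.pi_le_four
  have hM2 : 0 < M ^ 2 := by positivity
  have hρ0 : 0 < ρ := by linarith
  have hρ1 : 0 < ρ - M - 1 := by linarith
  have hk0 := h0 0
  have hkM := h1 0
  have hksq : k 0 ^ 2 ≤ M ^ 2 := by nlinarith
  have hcont : Continuous fun x => max 0 (k x - ρ * Real.sin x) := by fun_prop
  rw [abs_le]
  constructor
  · -- lower bound
    have l1 : ∫ x in (0:ℝ)..(Real.pi / 2), max 0 (k 0 - (ρ + M) * x) ≤
        ∫ x in (0:ℝ)..(Real.pi / 2), max 0 (k x - ρ * Real.sin x) := by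
      apply intervalIntegral.integral_mono_on (by positivity)
        ((trunc_cont _ _).intervalIntegrable _ _) (hcont.intervalIntegrable _ _)
      intro x hx
      apply max_le_max le_rfl
      have a1 := (abs_le.1 (h2 x hx.1)).1
      have a2 := mul_le_mul_of_nonneg_left (Real.sin_le hx.1) hρ0.le
      linarith
    rw [trunc_eq (by linarith) hk0 (by nlinarith)] at l1
    have l2 : k 0 ^ 2 / (2 * ρ) - M ^ 2 * (M + 1) / ρ ^ 2 ≤ k 0 ^ 2 / (2 * (ρ + M)) := by
      have e : k 0 ^ 2 / (2 * ρ) - k 0 ^ 2 / (2 * (ρ + M)) = k 0 ^ 2 * M / (2 * ρ * (ρ + M)) := by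
        have : ρ + M ≠ 0 := by positivity
        field_simp
        ring
      have e2 : k 0 ^ 2 * M / (2 * ρ * (ρ + M)) ≤ M ^ 2 * (M + 1) / ρ ^ 2 := by
        apply div_le_div₀ (by positivity) _ (by positivity) _
        · apply mul_le_mul hksq (by linarith) hM.le (by positivity)
        · nlinarith
      linarith
    linarith
  · -- upper bound
    have l1 : ∫ x in (0:ℝ)..(Real.pi / 2), max 0 (k x - ρ * Real.sin x) ≤
        ∫ x in (0:ℝ)..(Real.pi / 2), max 0 (k 0 - (ρ - M - 1) * x) := by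
      apply intervalIntegral.integral_mono_on (by positivity) (hcont.intervalIntegrable _ _)
        ((trunc_cont _ _).intervalIntegrable _ _)
      intro x hx
      rcases le_or_gt x (Real.pi * M / (2 * ρ)) with hc | hc
      · apply max_le_max le_rfl
        have a1 := (abs_le.1 (h2 x hx.1)).2
        have a2 := mul_le_mul_of_nonneg_left (Real.sin_ge_sub_cube hx.1) hρ0.le
        have a3 : ρ * (x ^ 3 / 6) ≤ x := by
          have b1 : x ^ 2 ≤ (Real.pi * M / (2 * ρ)) ^ 2 := by
            apply pow_le_pow_left₀ hx.1 hc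
          have b2 : ρ * (Real.pi * M / (2 * ρ)) ^ 2 ≤ 6 := by
            have e : ρ * (Real.pi * M / (2 * ρ)) ^ 2 = Real.pi ^ 2 * M ^ 2 / (4 * ρ) := by
              field_simp
              ring
            rw [e, div_le_iff₀ (by positivity)]
            have c1 : Real.pi ^ 2 ≤ 16 := by nlinarith
            calc Real.pi ^ 2 * M ^ 2 ≤ 16 * M ^ 2 := by gcongr
              _ ≤ 6 * (4 * ρ) := by linarith
          have b3 : ρ * x ^ 2 ≤ 6 := (mul_le_mul_of_nonneg_left b1 hρ0.le).trans b2
          calc ρ * (x ^ 3 / 6) = (ρ * x ^ 2) * x / 6 := by ring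
            _ ≤ 6 * x / 6 := by
              have := mul_le_mul_of_nonneg_right b3 hx.1
              linarith
            _ = x := by ring
        linarith
      · have a1 : k x - ρ * Real.sin x ≤ 0 := by
          have b1 := Real.mul_le_sin hx.1 hx.2
          have b2 : M ≤ ρ * (2 / Real.pi * x) := by
            rw [div_lt_iff₀ (by positivity)] at hc
            have : ρ * (2 / Real.pi * x) = (x * (2 * ρ)) / Real.pi := by ring
            rw [this, le_div_iff₀ hpi]
            linarith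
          have b3 := mul_le_mul_of_nonneg_left b1 hρ0.le
          linarith [h1 x]
        rw [max_eq_left a1]
        exact le_max_left _ _
    have l2 := trunc_le (L := Real.pi / 2) hρ1 hk0 (by positivity)
    have l3 : k 0 ^ 2 / (2 * (ρ - M - 1)) ≤ k 0 ^ 2 / (2 * ρ) + M ^ 2 * (M + 1) / ρ ^ 2 := by
      have e : k 0 ^ 2 / (2 * (ρ - M - 1)) - k 0 ^ 2 / (2 * ρ) =
          k 0 ^ 2 * (M + 1) / (2 * ρ * (ρ - M - 1)) := by
        have : ρ - M - 1 ≠ 0 := hρ1.ne'
        field_simp
        ring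
      have e2 : k 0 ^ 2 * (M + 1) / (2 * ρ * (ρ - M - 1)) ≤ M ^ 2 * (M + 1) / ρ ^ 2 := by
        apply div_le_div₀ (by positivity) _ (by positivity) _
        · gcongr
        · nlinarith
      linarith
    linarith

end Q188.Str
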