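import Pool.Agent.Q188.Str.Second

/-!
# The ellipse
-/

set_option autoImplicit false
open MeasureTheory Metric Set Filter Topology

namespace Q188.Str

open Pool.Agent.Y508

variable {K : Set E2}

theorem sin_bound_three {n : ℤ} (h0 : n ≠ 0) (h2 : n ≠ 2) (h2' : n ≠ -2) :
    1 - 2 * Real.sin (n * Real.pi / 4) / n ≠ 0 := by
  by_cases h1 : n = 1
  · subst h1
    have e : ((1 : ℤ) : ℝ) * Real.pi / 4 = Real.pi / 4 := by push_cast; ring
    rw [e, Real.sin_pi_div_four]
    have hs2 : 1 < √2 := by rw [Real.lt_sqrt (by norm_num)]; norm_num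
    push_cast
    intro h
    linarith
  by_cases h1' : n = -1
  · subst h1'
    have e : ((-1 : ℤ) : ℝ) * Real.pi / 4 = -(Real.pi / 4) := by push_cast; ring
    rw [e, Real.sin_neg, Real.sin_pi_div_four]
    have hs2 : 1 < √2 := by rw [Real.lt_sqrt (by norm_num)]; norm_num
    push_cast
    intro h
    linarith
  have hn : (3 : ℝ) ≤ |(n : ℝ)| := by
    have : (3 : ℤ) ≤ |n| := by
      rcases le_or_gt 0 n with h | h
      · rw [abs_of_nonneg h]; omega
      · rw [abs_of_neg h]; omega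
    exact_mod_cast this
  have h3 : |2 * Real.sin (n * Real.pi / 4) / n| < 1 := by
    rw [abs_div, abs_mul, abs_of_pos (by norm_num : (0 : ℝ) < 2), div_lt_one (by linarith)]
    have := Real.abs_sin_le_one (n * Real.pi / 4)
    linarith
  have := (abs_lt.1 h3).2
  linarith

theorem sq_form (hK : Body K) (he : ∀ θ, hs K (θ + Real.pi) = hs K θ) (hT : TP K) :
    ∃ A B C : ℝ, ∀ θ, hs K θ ^ 2 = A * Real.cos θ ^ 2 + 2 * B * (Real.sin θ * Real.cos θ) +
      C * Real.sin θ ^ 2 := by
  obtain ⟨M, hM0, hM⟩ := exists_bound hK.cpt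
  have hex := ex_second hK he hM0 hM
  have hU := hex.main hK hT
  obtain ⟨a, b, hc⟩ := four_real hex.cont hex.per {-2, 0, 2} (by
    intro n hn
    simp only [Finset.mem_insert, Finset.mem_singleton, not_or] at hn
    apply coeff_zero hex.cont hex.per 1 (U 1 (fun φ => hs K (φ + Real.pi / 2) ^ 2) 0) _ n hn.2.1
    · exact sin_bound_three hn.2.1 hn.2.2 hn.1
    · intro φ
      rw [← hU φ 0]
      unfold U
      have h2 : √2 ≠ 0 := by positivity
      rw [pow_one, div_self h2])
  refine ⟨a 0 - (a 2 + a (-2)), -(b 2 - b (-2)), a 0 + (a 2 + a (-2)), fun θ => ?_⟩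
  have h := hc (θ - Real.pi / 2)
  rw [Finset.sum_insert (by decide), Finset.sum_insert (by decide), Finset.sum_singleton] at h
  simp only [sub_add_cancel] at h
  rw [h]
  push_cast
  have e1 : (-2 : ℝ) * (θ - Real.pi / 2) = -(2 * θ - Real.pi) := by ring
  have e2 : (2 : ℝ) * (θ - Real.pi / 2) = 2 * θ - Real.pi := by ring
  rw [e1, e2, Real.cos_neg, Real.sin_neg, Real.cos_sub_pi, Real.sin_sub_pi, Real.cos_two_mul,
    Real.sin_two_mul, zero_mul, Real.cos_zero, Real.sin_zero]
  have h3 := Real.sin_sq_add_cos_sq θ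
  have h4 : Real.sin θ ^ 2 = 1 - Real.cos θ ^ 2 := by linarith
  rw [h4]
  ring

/-- the linear map -/
noncomputable def lin (p q r : ℝ) (hp : p ≠ 0) (hr : r ≠ 0) : E2 ≃ₗ[ℝ] E2 where
  toFun y := pt (p * y 0) (q * y 0 + r * y 1)
  invFun z := pt (z 0 / p) ((z 1 - q * (z 0 / p)) / r)
  map_add' x y := by
    ext i
    fin_cases i
    · show p * (x 0 + y 0) = p * x 0 + p * y 0
      ring
    · show q * (x 0 + y 0) + r * (x 1 + y 1) = q * x 0 + r * x 1 + (q * y 0 + r * y 1)
      ring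
  map_smul' c x := by
    ext i
    fin_cases i
    · show p * (c * x 0) = c * (p * x 0)
      ring
    · show q * (c * x 0) + r * (c * x 1) = c * (q * x 0 + r * x 1)
      ring
  left_inv y := by
    ext i
    fin_cases i
    · show p * y 0 / p = y 0
      field_simp
    · show ((q * y 0 + r * y 1) - q * ((p * y 0) / p)) / r = y 1
      field_simp
      ring
  right_inv z := by
    ext i
    fin_cases i
    · show p * (z 0 / p) = z 0
      field_simp
    · show q * (z 0 / p) + r * ((z 1 - q * (z 0 / p)) / r) = z 1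
      field_simp
      ring

theorem lin_apply (p q r : ℝ) (hp : p ≠ 0) (hr : r ≠ 0) (y : E2) :
    lin p q r hp hr y = pt (p * y 0) (q * y 0 + r * y 1) := rfl

theorem ip_lin (p q r : ℝ) (hp : p ≠ 0) (hr : r ≠ 0) (y : E2) (θ : ℝ) :
    ip (lin p q r hp hr y) θ =
      inner ℝ y (pt (p * Real.cos θ + q * Real.sin θ) (r * Real.sin θ)) := by
  rw [inner_E2, lin_apply]
  simp only [ip, pt_zero, pt_one]
  ring

theorem norm_vec (p q r θ : ℝ) : ‖pt (p * Real.cos θ + q * Real.sin θ) (r * Real.sin θ)‖ ^ 2 =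
    p ^ 2 * Real.cos θ ^ 2 + 2 * (p * q) * (Real.sin θ * Real.cos θ) +
      (q ^ 2 + r ^ 2) * Real.sin θ ^ 2 := by
  rw [norm_sq_E2, pt_zero, pt_one]
  ring

theorem hs_ellipse (p q r : ℝ) (hp : p ≠ 0) (hr : r ≠ 0) (θ : ℝ) :
    hs (lin p q r hp hr '' closedBall 0 1) θ =
      ‖pt (p * Real.cos θ + q * Real.sin θ) (r * Real.sin θ)‖ := by
  set v := pt (p * Real.cos θ + q * Real.sin θ) (r * Real.sin θ) with hv
  have hcont : Continuous (lin p q r hp hr) :=
    (lin p q r hp hr).toContinuousLinearEquiv.continuous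
  have hcpt : IsCompact (lin p q r hp hr '' closedBall 0 1) :=
    (isCompact_closedBall _ _).image hcont
  apply le_antisymm
  · apply hs_le ((nonempty_closedBall.2 zero_le_one).image _)
    rintro _ ⟨y, hy, rfl⟩
    rw [ip_lin, ← hv]
    rw [mem_closedBall, dist_zero_right] at hy
    calc inner ℝ y v ≤ ‖y‖ * ‖v‖ := real_inner_le_norm _ _
      _ ≤ 1 * ‖v‖ := by gcongr
      _ = ‖v‖ := one_mul _
  · by_cases h0 : v = 0
    · rw [h0, norm_zero]
      have := le_hs hcpt (mem_image_of_mem (lin p q r hp hr)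
        (mem_closedBall_self zero_le_one : (0 : E2) ∈ closedBall 0 1)) θ
      rw [ip_lin, inner_zero_left] at this
      exact this
    · have hn : 0 < ‖v‖ := norm_pos_iff.2 h0
      have hm : ‖v‖⁻¹ • v ∈ closedBall (0 : E2) 1 := by
        rw [mem_closedBall, dist_zero_right, norm_smul, norm_inv, norm_norm,
          inv_mul_cancel₀ hn.ne']
      have := le_hs hcpt (mem_image_of_mem (lin p q r hp hr) hm) θ
      rw [ip_lin, ← hv, real_inner_smul_left, real_inner_self_eq_norm_sq] at this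
      have e : ‖v‖⁻¹ * ‖v‖ ^ 2 = ‖v‖ := by field_simp
      rw [e] at this
      exact this

theorem eq_of_hs {A B : Set E2} (hA : IsCompact A) (hAc : Convex ℝ A) (hAn : A.Nonempty)
    (hB : IsCompact B) (hBc : Convex ℝ B) (hBn : B.Nonempty) (h : ∀ θ, hs A θ = hs B θ) :
    A = B := by
  apply Subset.antisymm
  · intro x hx
    apply mem_of_ip_le hB hBc hBn
    intro θ
    rw [← h]
    exact le_hs hA hx θ
  · intro x hx
    apply mem_of_ip_le hA hAc hAn
    intro θ
    rw [h]
    exact le_hs hB hx θ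

theorem ellipse_centered (hK : Body K) (he : ∀ θ, hs K (θ + Real.pi) = hs K θ) (hT : TP K) :
    ∃ (L : E2 ≃ₗ[ℝ] E2), K = L '' closedBall 0 1 := by
  obtain ⟨A, B, C, h⟩ := sq_form hK he hT
  have hpos := hs_pos hK he
  have hA : 0 < A := by
    have h1 := h 0
    have h2 := hpos 0
    rw [Real.cos_zero, Real.sin_zero] at h1
    have h3 : 0 < hs K 0 ^ 2 := by positivity
    rw [h1] at h3
    linarith
  have hQ : ∀ x y : ℝ, (x ≠ 0 ∨ y ≠ 0) → 0 < A * x ^ 2 + 2 * B * (y * x) + C * y ^ 2 := by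
    intro x y hxy
    have hne : pt x y ≠ 0 := by
      intro h0
      have e0 : x = 0 := congrFun (congrArg WithLp.ofLp h0) 0
      have e1 : y = 0 := congrFun (congrArg WithLp.ofLp h0) 1
      rcases hxy with h | h
      · exact h e0
      · exact h e1
    obtain ⟨θ, hθ⟩ := exists_pos_ev _ hne
    have hn : 0 < ‖pt x y‖ := norm_pos_iff.2 hne
    set n := ‖pt x y‖ with hn'
    have ex : x = n * Real.cos θ := congrFun (congrArg WithLp.ofLp hθ) 0
    have ey : y = n * Real.sin θ := congrFun (congrArg WithLp.ofLp hθ) 1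
    have h1 := h θ
    have h2 := hpos θ
    have e : A * x ^ 2 + 2 * B * (y * x) + C * y ^ 2 = n ^ 2 * hs K θ ^ 2 := by
      rw [h1]
      calc A * x ^ 2 + 2 * B * (y * x) + C * y ^ 2 = A * (n * Real.cos θ) ^ 2 +
            2 * B * ((n * Real.sin θ) * (n * Real.cos θ)) + C * (n * Real.sin θ) ^ 2 := by
            rw [← ex, ← ey]
        _ = _ := by ring
    rw [e]
    positivity
  have hD : 0 < A * C - B ^ 2 := by
    have h1 := hQ (-B) A (Or.inr hA.ne')
    have e : A * (-B) ^ 2 + 2 * B * (A * -B) + C * A ^ 2 = A * (A * C - B ^ 2) := by ring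
    rw [e] at h1
    exact (mul_pos_iff_of_pos_left hA).1 h1
  have hp : √A ≠ 0 := (Real.sqrt_pos.2 hA).ne'
  have hr0 : 0 < (A * C - B ^ 2) / A := div_pos hD hA
  have hr : √((A * C - B ^ 2) / A) ≠ 0 := (Real.sqrt_pos.2 hr0).ne'
  have hsA : √A ^ 2 = A := Real.sq_sqrt hA.le
  have hsr : √((A * C - B ^ 2) / A) ^ 2 = (A * C - B ^ 2) / A := Real.sq_sqrt hr0.le
  refine ⟨lin (√A) (B / √A) (√((A * C - B ^ 2) / A)) hp hr, ?_⟩
  have hcont : Continuous (lin (√A) (B / √A) (√((A * C - B ^ 2) / A)) hp hr) :=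
    (lin (√A) (B / √A) (√((A * C - B ^ 2) / A)) hp hr).toContinuousLinearEquiv.continuous
  apply eq_of_hs hK.cpt hK.cvx hK.ne ((isCompact_closedBall _ _).image hcont)
    ((convex_closedBall _ _).linear_image (lin _ _ _ hp hr).toLinearMap)
    ((nonempty_closedBall.2 zero_le_one).image _)
  intro θ
  rw [hs_ellipse]
  have h1 := norm_vec (√A) (B / √A) (√((A * C - B ^ 2) / A)) θ
  have e1 : √A * (B / √A) = B := by field_simp
  have e2 : (B / √A) ^ 2 + √((A * C - B ^ 2) / A) ^ 2 = C := by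
    rw [hsr, div_pow, hsA]
    field_simp
    ring
  rw [e1, e2, hsA, ← h θ] at h1
  exact ((sq_eq_sq₀ (norm_nonneg _) (hpos θ).le).1 h1).symm

theorem exists_center (hK : Body K) (hT : TP K) : ∃ c : E2, ∀ θ,
    hs ((fun x => x - c) '' K) (θ + Real.pi) = hs ((fun x => x - c) '' K) θ := by
  obtain ⟨b, c, h⟩ := hs_anti hK hT
  refine ⟨pt (-b / 2) (-c / 2), fun θ => ?_⟩
  rw [hs_translate hK, hs_translate hK, ip_add_pi]
  have h1 := h θ
  simp only [ip, pt_zero, pt_one]
  linarith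

theorem ellipse (hK : Body K) (hT : TP K) : ∃ f : E2 ≃ᵃ[ℝ] E2, K = f '' closedBall 0 1 := by
  obtain ⟨c, hc⟩ := exists_center hK hT
  obtain ⟨L, hL⟩ := ellipse_centered (body_translate hK c) hc (tp_translate hK hT c)
  refine ⟨L.toAffineEquiv.trans (AffineEquiv.constVAdd ℝ E2 c), ?_⟩
  have e : (L.toAffineEquiv.trans (AffineEquiv.constVAdd ℝ E2 c) : E2 → E2) =
      (fun x => c + x) ∘ L := by
    funext x
    simp
  have e2 : K = (fun x => c + x) '' ((fun x => x - c) '' K) := by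
    rw [image_image]
    simp
  rw [e, image_comp, ← hL, ← e2]

end Q188.Str
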