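import Mathlib

/-!
# Fourier series with finitely many coefficients; averages over an arc
-/

set_option autoImplicit false
open MeasureTheory Metric Set Filter Topology

namespace Q188.Str

theorem two_pi_fact : Fact (0 < 2 * Real.pi) := ⟨Real.two_pi_pos⟩

/-- complex Fourier coefficient (unnormalized) -/
noncomputable def ch (G : ℝ → ℝ) (n : ℤ) : ℂ :=
  ∫ x in (0:ℝ)..(2 * Real.pi), Complex.exp (-(n * x * Complex.I)) * G x

theorem four_series {G : ℝ → ℝ} (hG : Continuous G) (hper : ∀ x, G (x + 2 * Real.pi) = G x)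
    (S : Finset ℤ) (h : ∀ n, n ∉ S → ch G n = 0) :
    ∃ c : ℤ → ℂ, ∀ x : ℝ, (G x : ℂ) = ∑ n ∈ S, c n * Complex.exp (n * x * Complex.I) := by
  have := two_pi_fact
  have hp : Function.Periodic (fun x => (G x : ℂ)) (2 * Real.pi) := fun x => by
    simp only [hper]
  have hfc : Continuous (hp.lift : AddCircle (2 * Real.pi) → ℂ) := by
    refine (QuotientAddGroup.isQuotientMap_mk _).continuous_iff.2 ?_
    exact Complex.continuous_ofReal.comp hG
  let f : C(AddCircle (2 * Real.pi), ℂ) := ⟨hp.lift, hfc⟩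
  have hf : ∀ x : ℝ, f (x : AddCircle (2 * Real.pi)) = (G x : ℂ) := fun x => rfl
  have hpi : (Real.pi : ℂ) ≠ 0 := by exact_mod_cast Real.pi_ne_zero
  have hexp : ∀ (n : ℤ) (x : ℝ), fourier n (x : AddCircle (2 * Real.pi)) =
      Complex.exp (n * x * Complex.I) := by
    intro n x
    rw [fourier_coe_apply]
    congr 1
    push_cast
    field_simp
  have hco : ∀ n, n ∉ S → fourierCoeff f n = 0 := by
    intro n hn
    rw [fourierCoeff_eq_intervalIntegral _ _ 0, zero_add]
    have e : (∫ x in (0:ℝ)..(2 * Real.pi), (fourier (-n) (x : AddCircle (2 * Real.pi))) •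
        f (x : AddCircle (2 * Real.pi))) = ch G n := by
      unfold ch
      congr 1
      funext x
      rw [hexp, hf, smul_eq_mul]
      congr 2
      push_cast
      ring
    rw [e, h n hn, smul_zero]
  have hsum : Summable (fourierCoeff f) := by
    apply summable_of_ne_finset_zero (s := S)
    intro n hn
    exact hco n hn
  refine ⟨fun n => fourierCoeff f n, fun x => ?_⟩
  have h1 := has_pointwise_sum_fourier_series_of_summable hsum (x : AddCircle (2 * Real.pi))
  have h2 : HasSum (fun i => fourierCoeff f i • fourier i (x : AddCircle (2 * Real.pi)))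
      (∑ n ∈ S, fourierCoeff f n • fourier n (x : AddCircle (2 * Real.pi))) := by
    apply hasSum_sum_of_ne_finset_zero
    intro n hn
    rw [hco n hn, zero_smul]
  rw [← hf x, h1.unique h2]
  apply Finset.sum_congr rfl
  intro n _
  rw [hexp, smul_eq_mul]

theorem exp_int (n : ℤ) (hn : n ≠ 0) :
    ∫ x in (0:ℝ)..(2 * Real.pi), Complex.exp (-(n * x * Complex.I)) = 0 := by
  have hn' : (-(n * Complex.I) : ℂ) ≠ 0 := by
    rw [neg_ne_zero]
    exact mul_ne_zero (by exact_mod_cast hn) Complex.I_ne_zero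
  have h := integral_exp_mul_complex (a := 0) (b := 2 * Real.pi) hn'
  have e : (fun x : ℝ => Complex.exp (-(n * x * Complex.I))) =
      fun x : ℝ => Complex.exp (-(n * Complex.I) * x) := by
    funext x
    congr 1
    ring
  rw [e, h]
  have e2 : (-(n * Complex.I) * ((2 * Real.pi : ℝ) : ℂ)) = (-n : ℤ) * (2 * Real.pi * Complex.I) := by
    push_cast
    ring
  rw [e2, Complex.exp_int_mul_two_pi_mul_I]
  simp

theorem arc_int (n : ℤ) (hn : n ≠ 0) :
    ∫ x in (Real.pi / 4)..(7 * Real.pi / 4), Complex.exp (n * x * Complex.I) =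
      ((-(2 * Real.sin (n * Real.pi / 4) / n) : ℝ) : ℂ) := by
  have hn0 : (n : ℂ) ≠ 0 := by exact_mod_cast hn
  have hn' : ((n * Complex.I) : ℂ) ≠ 0 := mul_ne_zero hn0 Complex.I_ne_zero
  have h := integral_exp_mul_complex (a := Real.pi / 4) (b := 7 * Real.pi / 4) hn'
  have e : (fun x : ℝ => Complex.exp ((n * x * Complex.I))) =
      fun x : ℝ => Complex.exp ((n * Complex.I) * x) := by
    funext x
    congr 1
    ring
  rw [e, h]
  have e2 : ((n * Complex.I) * ((7 * Real.pi / 4 : ℝ) : ℂ)) =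
      (n : ℤ) * (2 * Real.pi * Complex.I) + (-(n * Real.pi / 4 : ℝ) : ℂ) * Complex.I := by
    push_cast
    ring
  have e3 : ((n * Complex.I) * ((Real.pi / 4 : ℝ) : ℂ)) = ((n * Real.pi / 4 : ℝ) : ℂ) * Complex.I := by
    push_cast
    ring
  rw [e2, e3, Complex.exp_add, Complex.exp_int_mul_two_pi_mul_I, one_mul, Complex.exp_mul_I,
    Complex.exp_mul_I, Complex.cos_neg, Complex.sin_neg]
  push_cast
  field_simp
  ring

/-- the Fourier coefficients of a function for which `c G + arc average` is constant -/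
theorem coeff_zero {G : ℝ → ℝ} (hG : Continuous G) (hper : ∀ x, G (x + 2 * Real.pi) = G x)
    (c k : ℝ) (hU : ∀ φ, c * G φ + ∫ ψ in (Real.pi / 4)..(7 * Real.pi / 4), G (φ + ψ) = k)
    (n : ℤ) (hn : n ≠ 0) (hc : c - 2 * Real.sin (n * Real.pi / 4) / n ≠ 0) : ch G n = 0 := by
  set E : ℝ → ℂ := fun x => Complex.exp (-(n * x * Complex.I)) with hE
  have hEc : Continuous E := by rw [hE]; fun_prop
  have hG' : Continuous fun x => (G x : ℂ) := Complex.continuous_ofReal.comp hG
  have h1 : ∫ φ in (0:ℝ)..(2 * Real.pi), E φ * ((k : ℝ) : ℂ) = 0 := by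
    rw [intervalIntegral.integral_mul_const, exp_int n hn, zero_mul]
  have h2 : ∀ φ : ℝ, E φ * ((k : ℝ) : ℂ) = c * (E φ * G φ) +
      ∫ ψ in (Real.pi / 4)..(7 * Real.pi / 4), E φ * (G (φ + ψ) : ℂ) := by
    intro φ
    rw [← hU φ, intervalIntegral.integral_const_mul, intervalIntegral.integral_ofReal]
    push_cast
    ring
  have hcomp : Continuous (fun p : ℝ × ℝ => E p.1 * (G (p.1 + p.2) : ℂ)) :=
    (hEc.comp continuous_fst).mul (hG'.comp (continuous_fst.add continuous_snd))
  have hint : ∀ φ : ℝ, Continuous (fun ψ : ℝ => E φ * (G (φ + ψ) : ℂ)) := fun φ =>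
    continuous_const.mul (hG'.comp (continuous_const.add continuous_id))
  have hcont2 : Continuous fun φ : ℝ =>
      ∫ ψ in (Real.pi / 4)..(7 * Real.pi / 4), E φ * (G (φ + ψ) : ℂ) :=
    intervalIntegral.continuous_parametric_intervalIntegral_of_continuous' hcomp _ _
  have h3 : ∫ φ in (0:ℝ)..(2 * Real.pi), E φ * ((k : ℝ) : ℂ) =
      c * ch G n + ∫ φ in (0:ℝ)..(2 * Real.pi),
        ∫ ψ in (Real.pi / 4)..(7 * Real.pi / 4), E φ * (G (φ + ψ) : ℂ) := by
    have : (fun φ : ℝ => E φ * ((k : ℝ) : ℂ)) = fun φ => c * (E φ * G φ) +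
      ∫ ψ in (Real.pi / 4)..(7 * Real.pi / 4), E φ * (G (φ + ψ) : ℂ) := funext h2
    have hcc : Continuous fun φ : ℝ => (c : ℂ) * (E φ * (G φ : ℂ)) :=
      continuous_const.mul (hEc.mul hG')
    rw [this, intervalIntegral.integral_add (hcc.intervalIntegrable _ _)
      (hcont2.intervalIntegrable _ _), intervalIntegral.integral_const_mul]
    rfl
  have h4 : ∫ φ in (0:ℝ)..(2 * Real.pi),
        ∫ ψ in (Real.pi / 4)..(7 * Real.pi / 4), E φ * (G (φ + ψ) : ℂ) =
      ∫ ψ in (Real.pi / 4)..(7 * Real.pi / 4), ∫ φ in (0:ℝ)..(2 * Real.pi),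
        E φ * (G (φ + ψ) : ℂ) := by
    apply intervalIntegral_intervalIntegral_swap
    have h9 : IntegrableOn (fun p : ℝ × ℝ => E p.1 * (G (p.1 + p.2) : ℂ))
        (uIcc 0 (2 * Real.pi) ×ˢ uIcc (Real.pi / 4) (7 * Real.pi / 4)) :=
      hcomp.continuousOn.integrableOn_compact (isCompact_uIcc.prod isCompact_uIcc)
    exact h9.mono_set (prod_mono uIoc_subset_uIcc uIoc_subset_uIcc)
  have h5 : ∀ ψ : ℝ, ∫ φ in (0:ℝ)..(2 * Real.pi), E φ * (G (φ + ψ) : ℂ) =
      Complex.exp (n * ψ * Complex.I) * ch G n := by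
    intro ψ
    have e : (fun φ : ℝ => E φ * (G (φ + ψ) : ℂ)) = fun φ : ℝ =>
        Complex.exp (n * ψ * Complex.I) * (E (φ + ψ) * (G (φ + ψ) : ℂ)) := by
      funext φ
      rw [hE]
      simp only
      rw [← mul_assoc, ← Complex.exp_add]
      congr 2
      push_cast
      ring
    rw [e, intervalIntegral.integral_const_mul,
      intervalIntegral.integral_comp_add_right (fun x => E x * (G x : ℂ)) ψ]
    congr 1
    have hP : Function.Periodic (fun x => E x * (G x : ℂ)) (2 * Real.pi) := by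
      intro x
      simp only [hper]
      congr 1
      rw [hE]
      simp only
      have : (-(n * ((x + 2 * Real.pi : ℝ) : ℂ) * Complex.I)) =
          (-(n * x * Complex.I)) + ((-n : ℤ) : ℂ) * (2 * Real.pi * Complex.I) := by
        push_cast
        ring
      rw [this, Complex.exp_add, Complex.exp_int_mul_two_pi_mul_I, mul_one]
    have h6 := hP.intervalIntegral_add_eq ψ 0
    rw [zero_add] at h6 ⊢
    rw [add_comm ψ] at h6
    exact h6
  have h6 : (c : ℂ) * ch G n + (((-(2 * Real.sin (n * Real.pi / 4) / n) : ℝ) : ℂ)) * ch G n = 0 := by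
    rw [← arc_int n hn, ← intervalIntegral.integral_mul_const, ← h1, h3, h4]
    congr 2
    funext ψ
    rw [h5]
  rw [← add_mul, ← Complex.ofReal_add] at h6
  rcases mul_eq_zero.1 h6 with h7 | h7
  · exfalso
    apply hc
    rw [Complex.ofReal_eq_zero] at h7
    linarith
  · exact h7

theorem four_real {G : ℝ → ℝ} (hG : Continuous G) (hper : ∀ x, G (x + 2 * Real.pi) = G x)
    (S : Finset ℤ) (h : ∀ n, n ∉ S → ch G n = 0) :
    ∃ a b : ℤ → ℝ, ∀ x : ℝ, G x = ∑ n ∈ S, (a n * Real.cos (n * x) + b n * Real.sin (n * x)) := by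
  obtain ⟨c, hc⟩ := four_series hG hper S h
  refine ⟨fun n => (c n).re, fun n => -(c n).im, fun x => ?_⟩
  have h1 := congrArg Complex.re (hc x)
  rw [Complex.ofReal_re, Complex.re_sum] at h1
  rw [h1]
  apply Finset.sum_congr rfl
  intro n _
  have e : Complex.exp (n * x * Complex.I) = Complex.exp (((n * x : ℝ) : ℂ) * Complex.I) := by
    push_cast
    rfl
  rw [e, Complex.mul_re, Complex.exp_ofReal_mul_I_re, Complex.exp_ofReal_mul_I_im]
  ring

end Q188.Str
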