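import Pool.Agent.Q188.Str.Hyp
import Pool.Agent.Q188.Str.Fourier

/-!
# First order: the body is centrally symmetric
-/

set_option autoImplicit false
open MeasureTheory Metric Set Filter Topology

namespace Q188.Str

open Pool.Agent.Y508

theorem ip_lip (x : E2) (a b : ℝ) : ip x a - ip x b ≤ ‖x‖ * |a - b| := by
  have h1 : ip x a - ip x b = inner ℝ x (ev a - ev b) := by
    rw [inner_sub_right, inner_ev, inner_ev]
  have h2 : ‖ev a - ev b‖ ≤ |a - b| := by
    have e : ‖ev a - ev b‖ ^ 2 = 2 - 2 * Real.cos (a - b) := by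
      rw [norm_sq_E2]
      simp only [PiLp.sub_apply, ev_zero, ev_one]
      rw [Real.cos_sub]
      have h3 := Real.sin_sq_add_cos_sq a
      have h4 := Real.sin_sq_add_cos_sq b
      nlinarith
    have h5 := Real.one_sub_sq_div_two_le_cos (x := a - b)
    have h6 : ‖ev a - ev b‖ ^ 2 ≤ |a - b| ^ 2 := by
      rw [e, sq_abs]
      linarith
    exact (sq_le_sq₀ (norm_nonneg _) (abs_nonneg _)).1 h6
  rw [h1]
  calc inner ℝ x (ev a - ev b) ≤ ‖x‖ * ‖ev a - ev b‖ := real_inner_le_norm _ _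
    _ ≤ ‖x‖ * |a - b| := by gcongr

theorem hs_lip {K : Set E2} (hK : IsCompact K) (hne : K.Nonempty) {M : ℝ}
    (hM : ∀ x ∈ K, ‖x‖ ≤ M) (a b : ℝ) : |hs K a - hs K b| ≤ M * |a - b| := by
  have key : ∀ a b, hs K a - hs K b ≤ M * |a - b| := by
    intro a b
    obtain ⟨x, hx, hxe⟩ := exists_hs hK hne a
    have h1 := ip_lip x a b
    have h2 := le_hs hK hx b
    have h3 := mul_le_mul_of_nonneg_right (hM x hx) (abs_nonneg (a - b))
    rw [hxe]
    linarith
  rw [abs_le]
  have h1 := key a b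
  have h2 := key b a
  rw [abs_sub_comm b a] at h2
  constructor <;> linarith

theorem hs_lip_int {K : Set E2} (hK : IsCompact K) (hne : K.Nonempty) {M : ℝ}
    (hM : ∀ x ∈ K, ‖x‖ ≤ M) (a b : ℝ) : |N K a - N K b| ≤ Real.pi * M * |a - b| := by
  unfold N
  rw [← intervalIntegral.integral_sub (hs_comp_int hK _ _ _) (hs_comp_int hK _ _ _),
    ← Real.norm_eq_abs]
  refine (intervalIntegral.norm_integral_le_of_norm_le_const (C := M * |a - b|) ?_).trans ?_
  · intro ψ _
    rw [Real.norm_eq_abs]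
    have := hs_lip hK hne hM (a + ψ) (b + ψ)
    rwa [add_sub_add_right_eq_sub] at this
  · have : 3 * Real.pi / 2 - Real.pi / 2 = Real.pi := by ring
    rw [this, abs_of_pos Real.pi_pos]
    linarith

theorem ex_first {K : Set E2} (hK : Body K) {M : ℝ} (hM0 : 0 < M) (hM : ∀ x ∈ K, ‖x‖ ≤ M) :
    Ex K 0 0 (N K) (Real.pi * M) (2 * (M ^ 2 / kap (Real.pi / 2))) 1 := by
  have hpi := Real.pi_pos
  have hkap := kap_pos (α := Real.pi / 2) (by positivity) le_rfl
  refine ⟨zero_le_one, by positivity, by positivity, le_rfl, ?_, ?_, ?_, ?_⟩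
  · intro φ
    exact N_bound (hs_bound hK.cpt hK.ne hM) φ
  · intro φ θ
    exact hs_lip_int hK.cpt hK.ne hM φ θ
  · intro φ
    unfold N
    congr 1
    funext ψ
    rw [show φ + 2 * Real.pi + ψ = φ + ψ + 2 * Real.pi by ring, hs_two_pi]
  · intro ρ hρ φ
    obtain ⟨h1, h2⟩ := F_first hK.cpt (hs_bound hK.cpt hK.ne hM) (by linarith : 0 < ρ) φ
    have hw : w 0 ρ = 1 := by simp [w]
    rw [hw, mul_one, add_zero, mul_one]
    have e : 2 * (M ^ 2 / kap (Real.pi / 2)) / ρ = 2 * (M ^ 2 / (ρ * kap (Real.pi / 2))) := by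
      field_simp
    rw [e, abs_of_nonneg (by linarith)]
    linarith

theorem cont_N {K : Set E2} (hK : Body K) : Continuous (N K) := by
  obtain ⟨M, hM0, hM⟩ := exists_bound hK.cpt
  exact (ex_first hK hM0 hM).cont

theorem sin_bound_two {n : ℤ} (h1 : n ≠ 1) (h2 : n ≠ -1) (h0 : n ≠ 0) :
    |2 * Real.sin (n * Real.pi / 4) / n| ≤ 1 := by
  have hn : (2 : ℝ) ≤ |(n : ℝ)| := by
    have : (2 : ℤ) ≤ |n| := by
      rcases le_or_gt 0 n with h | h
      · rw [abs_of_nonneg h]; omega
      · rw [abs_of_neg h]; omega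
    exact_mod_cast this
  rw [abs_div, abs_mul, abs_of_pos (by norm_num : (0 : ℝ) < 2), div_le_one (by linarith)]
  have := Real.abs_sin_le_one (n * Real.pi / 4)
  linarith

theorem N_form {K : Set E2} (hK : Body K) (hT : TP K) : ∃ a b c : ℝ, ∀ φ, N K φ =
    a + b * Real.cos φ + c * Real.sin φ := by
  obtain ⟨M, hM0, hM⟩ := exists_bound hK.cpt
  have hex := ex_first hK hM0 hM
  have hU := hex.main hK hT
  have hs2 : 1 < √2 := by rw [Real.lt_sqrt (by norm_num)]; norm_num
  obtain ⟨a, b, hc⟩ := four_real (cont_N hK) hex.per {-1, 0, 1} (by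
    intro n hn
    simp only [Finset.mem_insert, Finset.mem_singleton, not_or] at hn
    apply coeff_zero (cont_N hK) hex.per (√2) (U 0 (N K) 0) _ n hn.2.1
    · intro h
      have := (abs_le.1 (sin_bound_two hn.2.2 hn.1 hn.2.1)).2
      linarith
    · intro φ
      rw [← hU φ 0]
      unfold U
      rw [pow_zero, div_one])
  refine ⟨a 0, a 1 + a (-1), b 1 - b (-1), fun φ => ?_⟩
  rw [hc φ, Finset.sum_insert (by decide), Finset.sum_insert (by decide), Finset.sum_singleton]
  push_cast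
  rw [neg_mul, Real.cos_neg, Real.sin_neg, zero_mul, one_mul, Real.cos_zero, Real.sin_zero]
  ring

theorem hs_anti {K : Set E2} (hK : Body K) (hT : TP K) : ∃ b c : ℝ, ∀ θ,
    hs K (θ + Real.pi) - hs K θ = b * Real.cos θ + c * Real.sin θ := by
  obtain ⟨a, b, c, h⟩ := N_form hK hT
  refine ⟨b, c, fun θ => ?_⟩
  set φ := θ - Real.pi / 2 with hφ
  have hd1 : HasDerivAt (N K) (hs K (φ + 3 * Real.pi / 2) - hs K (φ + Real.pi / 2)) φ := by
    have e : N K = fun φ => (∫ t in (0:ℝ)..(φ + 3 * Real.pi / 2), hs K t) -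
        ∫ t in (0:ℝ)..(φ + Real.pi / 2), hs K t := by
      funext φ
      unfold N
      rw [intervalIntegral.integral_comp_add_left (fun t => hs K t) φ,
        intervalIntegral.integral_interval_sub_left ((cont_hs hK.cpt).intervalIntegrable _ _)
          ((cont_hs hK.cpt).intervalIntegrable _ _)]
    rw [e]
    have hc := cont_hs hK.cpt
    have k1 := (hc.integral_hasStrictDerivAt 0 (φ + 3 * Real.pi / 2)).hasDerivAt
    have k2 := (hc.integral_hasStrictDerivAt 0 (φ + Real.pi / 2)).hasDerivAt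
    exact (k1.comp_add_const φ (3 * Real.pi / 2)).sub (k2.comp_add_const φ (Real.pi / 2))
  have hd2 : HasDerivAt (N K) (b * (-Real.sin φ) + c * Real.cos φ) φ := by
    have e : N K = fun φ => a + b * Real.cos φ + c * Real.sin φ := funext h
    rw [e]
    have := (((Real.hasDerivAt_cos φ).const_mul b).const_add a).add ((Real.hasDerivAt_sin φ).const_mul c)
    exact this
  have h3 := hd1.unique hd2
  have e1 : φ + 3 * Real.pi / 2 = θ + Real.pi := by rw [hφ]; ring
  have e2 : φ + Real.pi / 2 = θ := by rw [hφ]; ring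
  rw [e1, e2] at h3
  rw [h3, hφ, Real.sin_sub_pi_div_two, Real.cos_sub_pi_div_two]
  ring

end Q188.Str
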