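import Pool.Agent.Q188.Str.Trans

/-!
# The transitivity hypothesis
-/

set_option autoImplicit false
open MeasureTheory Metric Set Filter Topology

namespace Q188.Str

open Pool.Agent.Y508

/-- the hypothesis of the statement -/
def Hyp (K : Set E2) : Prop :=
  ∀ ℓ1 : ℝ, (MeasureTheory.Measure.hausdorffMeasure 1 (frontier K)).toReal < ℓ1 →
        ∀ ℓ2 : ℝ,
          (MeasureTheory.Measure.hausdorffMeasure 1
              (frontier {x : EuclideanSpace ℝ (Fin 2) |
                (MeasureTheory.Measure.hausdorffMeasure 1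
                  (frontier (convexHull ℝ (insert x K)))).toReal ≤ ℓ1})).toReal < ℓ2 →
          ∃ ℓ3 : ℝ,
            {y : EuclideanSpace ℝ (Fin 2) |
              (MeasureTheory.Measure.hausdorffMeasure 1
                (frontier (convexHull ℝ (insert y
                  {x : EuclideanSpace ℝ (Fin 2) |
                    (MeasureTheory.Measure.hausdorffMeasure 1
                      (frontier (convexHull ℝ (insert x K)))).toReal ≤ ℓ1})))).toReal = ℓ2}
            = {y : EuclideanSpace ℝ (Fin 2) |
              (MeasureTheory.Measure.hausdorffMeasure 1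
                (frontier (convexHull ℝ (insert y K)))).toReal = ℓ3}

theorem W_lt_F {K : Set E2} (hK : Body K) {x : E2} (hx : x ∉ K) : W K < F K x := by
  obtain ⟨θ, hθ⟩ := sep hK.cpt hK.cvx hK.ne hx
  obtain ⟨φ, hφ, he⟩ := ev_per θ
  have h1 : hs K φ < ip x φ := by
    have e1 : hs K θ = hs K φ := by
      have hc : Real.cos θ = Real.cos φ := congrFun (congrArg WithLp.ofLp he) 0
      have hs' : Real.sin θ = Real.sin φ := congrFun (congrArg WithLp.ofLp he) 1
      unfold Pool.Agent.Y508.hs ip
      rw [hc, hs']
    have e2 : ip x θ = ip x φ := by rw [← inner_ev, ← inner_ev, he]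
    rw [← e1, ← e2]
    exact hθ
  apply intervalIntegral.integral_lt_integral_of_continuousOn_of_le_of_exists_lt Real.two_pi_pos
    (cont_hs hK.cpt).continuousOn (cont_max hK.cpt x).continuousOn
  · intro θ _
    exact le_max_left _ _
  · exact ⟨φ, ⟨hφ.1, hφ.2.le⟩, lt_of_lt_of_le h1 (le_max_right _ _)⟩

theorem tp_of_hyp {K : Set E2} (hK : Body K) (h : Hyp K) : TP K := by
  intro ℓ hℓ P P' hP hPP'
  have eL : {x : EuclideanSpace ℝ (Fin 2) |
      (MeasureTheory.Measure.hausdorffMeasure 1
        (frontier (convexHull ℝ (insert x K)))).toReal ≤ ℓ} = Lev K ℓ := by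
    ext x
    simp only [mem_ofPred_eq, Lev, perim_hull hK]
  have hA := body_lev hK hℓ
  have h1 := h ℓ (by rw [perim_eq hK]; exact hℓ) (F (Lev K ℓ) P)
  rw [eL, perim_eq hA] at h1
  obtain ⟨ℓ3, h3⟩ := h1 (W_lt_F hA (fun hm => absurd (show F K P ≤ ℓ from hm) (not_le.2 hP)))
  have h4 : P ∈ {y : EuclideanSpace ℝ (Fin 2) |
      (MeasureTheory.Measure.hausdorffMeasure 1
        (frontier (convexHull ℝ (insert y (Lev K ℓ))))).toReal = F (Lev K ℓ) P} := perim_hull hA P
  rw [h3] at h4
  have h5 : F K P = ℓ3 := by rw [← perim_hull hK]; exact h4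
  have h6 : P' ∈ {y : EuclideanSpace ℝ (Fin 2) |
      (MeasureTheory.Measure.hausdorffMeasure 1
        (frontier (convexHull ℝ (insert y K)))).toReal = ℓ3} := by
    show (MeasureTheory.Measure.hausdorffMeasure 1
        (frontier (convexHull ℝ (insert P' K)))).toReal = ℓ3
    rw [perim_hull hK, ← hPP', h5]
  rw [← h3] at h6
  have h7 : (MeasureTheory.Measure.hausdorffMeasure 1
        (frontier (convexHull ℝ (insert P' (Lev K ℓ))))).toReal = F (Lev K ℓ) P := h6
  rw [perim_hull hA] at h7
  exact h7.symm

/-! translations -/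

theorem hs_translate {K : Set E2} (hK : Body K) (c : E2) (θ : ℝ) :
    hs ((fun x => x - c) '' K) θ = hs K θ - ip c θ := by
  have hcpt : IsCompact ((fun x => x - c) '' K) := hK.cpt.image (by fun_prop)
  apply le_antisymm
  · apply hs_le (hK.ne.image _)
    rintro _ ⟨x, hx, rfl⟩
    simp only
    rw [ip_sub]
    linarith [le_hs hK.cpt hx θ]
  · obtain ⟨x, hx, hxe⟩ := exists_hs hK.cpt hK.ne θ
    have := le_hs hcpt (mem_image_of_mem (fun x => x - c) hx) θ
    simp only [ip_sub] at this
    linarith

theorem body_translate {K : Set E2} (hK : Body K) (c : E2) : Body ((fun x => x - c) '' K) := by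
  refine ⟨hK.cpt.image (by fun_prop), ?_, ?_⟩
  · have e : (fun x => x - c) '' K = (fun x => -c + x) '' K := by
      apply image_congr
      intro x _
      abel
    rw [e]
    exact hK.cvx.translate (-c)
  · have e : (fun x => x - c) '' K = (Homeomorph.subRight c) '' K := rfl
    rw [e, ← Homeomorph.image_interior]
    exact hK.int.image _

theorem F_translate {K : Set E2} (hK : Body K) (c x : E2) :
    F ((fun x => x - c) '' K) (x - c) = F K x - ∫ θ in (0:ℝ)..(2 * Real.pi), ip c θ := by
  unfold F
  rw [← intervalIntegral.integral_sub (F_int hK.cpt _ _ _) ((cont_ip c).intervalIntegrable _ _)]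
  congr 1
  funext θ
  rw [hs_translate hK, ip_sub, max_sub_sub_right]

theorem int_ip (c : E2) : ∫ θ in (0:ℝ)..(2 * Real.pi), ip c θ = 0 := by
  unfold ip
  rw [intervalIntegral.integral_add (by apply Continuous.intervalIntegrable; fun_prop)
    (by apply Continuous.intervalIntegrable; fun_prop), intervalIntegral.integral_const_mul,
    intervalIntegral.integral_const_mul, integral_cos, integral_sin]
  simp

theorem tp_translate {K : Set E2} (hK : Body K) (h : TP K) (c : E2) :
    TP ((fun x => x - c) '' K) := by
  have hF : ∀ x, F ((fun x => x - c) '' K) x = F K (x + c) := by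
    intro x
    have := F_translate hK c (x + c)
    rw [int_ip, sub_zero, add_sub_cancel_right] at this
    exact this
  have hW : W ((fun x => x - c) '' K) = W K := by
    unfold W
    have e : (fun θ => hs ((fun x => x - c) '' K) θ) = fun θ => hs K θ - ip c θ := by
      funext θ
      exact hs_translate hK c θ
    rw [e, intervalIntegral.integral_sub ((cont_hs hK.cpt).intervalIntegrable _ _)
      ((cont_ip c).intervalIntegrable _ _), int_ip, sub_zero]
  intro ℓ hℓ P P' hP hPP'
  rw [hW] at hℓ
  rw [hF] at hP
  rw [hF, hF] at hPP'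
  have hL : Lev ((fun x => x - c) '' K) ℓ = (fun x => x - c) '' (Lev K ℓ) := by
    ext x
    constructor
    · intro hx
      refine ⟨x + c, ?_, add_sub_cancel_right _ _⟩
      show F K (x + c) ≤ ℓ
      rw [← hF]
      exact hx
    · rintro ⟨y, hy, rfl⟩
      show F ((fun x => x - c) '' K) (y - c) ≤ ℓ
      rw [hF, sub_add_cancel]
      exact hy
  rw [hL]
  have hA := body_lev hK hℓ
  have h1 := F_translate hA c (P + c)
  have h2 := F_translate hA c (P' + c)
  rw [add_sub_cancel_right] at h1 h2
  rw [h1, h2, h ℓ hℓ (P + c) (P' + c) hP hPP']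

end Q188.Str
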