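import Pool.Agent.Q188.Str.Radial

/-!
# The support function of the level sets
-/

set_option autoImplicit false
open MeasureTheory Metric Set Filter Topology

namespace Q188.Str

open Pool.Agent.Y508

/-- sublevel set -/
def Lev (K : Set E2) (ℓ : ℝ) : Set E2 := {x | F K x ≤ ℓ}

theorem hs_bound {K : Set E2} (hK : IsCompact K) (hne : K.Nonempty) {M : ℝ}
    (hM : ∀ x ∈ K, ‖x‖ ≤ M) (θ : ℝ) : |hs K θ| ≤ M := by
  obtain ⟨x, hx, hxe⟩ := exists_hs hK hne θ
  rw [hxe]
  exact (abs_ip_le x θ).trans (hM x hx)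

theorem exists_bound {K : Set E2} (hK : IsCompact K) : ∃ M : ℝ, 0 < M ∧ ∀ x ∈ K, ‖x‖ ≤ M := by
  obtain ⟨M, hM⟩ := hK.isBounded.exists_norm_le
  exact ⟨max M 1, lt_of_lt_of_le one_pos (le_max_right _ _), fun x hx => (hM x hx).trans
    (le_max_left _ _)⟩

/-- first order expansion of `F` -/
theorem F_first {K : Set E2} (hK : IsCompact K) {M : ℝ} (hM : ∀ θ, |hs K θ| ≤ M) {ρ : ℝ}
    (hρ : 0 < ρ) (φ : ℝ) : 2 * ρ + N K φ ≤ F K (ρ • ev φ) ∧
      F K (ρ • ev φ) ≤ 2 * ρ + N K φ + 2 * (M ^ 2 / (ρ * kap (Real.pi / 2))) := by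
  have hc : Continuous fun ψ => hs K (φ + ψ) :=
    (cont_hs hK).comp (continuous_const.add continuous_id)
  have h := switch (H := fun ψ => hs K (φ + ψ)) hc (α := Real.pi / 2) (r := ρ) (E := M)
    (by positivity) le_rfl hρ (fun ψ => by
      rw [Real.cos_pi_div_two, mul_zero, sub_zero]
      exact hM _)
  rw [F_polar, outer_arcs hK φ (Real.pi / 2), Real.sin_pi_div_two, mul_one] at *
  have e : 2 * Real.pi - Real.pi / 2 = 3 * Real.pi / 2 := by ring
  rw [e] at h
  exact h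

theorem N_bound {K : Set E2} {M : ℝ} (hM : ∀ θ, |hs K θ| ≤ M) (φ : ℝ) :
    |N K φ| ≤ Real.pi * M := by
  unfold N
  rw [← Real.norm_eq_abs]
  refine (intervalIntegral.norm_integral_le_of_norm_le_const (C := M) ?_).trans ?_
  · intro θ _
    exact hM _
  · have : 3 * Real.pi / 2 - Real.pi / 2 = Real.pi := by ring
    rw [this, abs_of_pos Real.pi_pos, mul_comm]

theorem body_lev {K : Set E2} (hK : Body K) {ℓ : ℝ} (hℓ : W K < ℓ) : Body (Lev K ℓ) := by
  obtain ⟨M, hM0, hM⟩ := exists_bound hK.cpt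
  refine ⟨?_, F_convex hK.cpt ℓ, ?_⟩
  · apply Metric.isCompact_of_isClosed_isBounded
    · exact isClosed_le (cont_F hK.cpt) continuous_const
    · rw [isBounded_iff_forall_norm_le]
      refine ⟨|ℓ| + Real.pi * M, fun x hx => ?_⟩
      by_cases h0 : x = 0
      · rw [h0, norm_zero]
        have := Real.pi_pos
        positivity
      · have hp : 0 < ‖x‖ := norm_pos_iff.2 h0
        obtain ⟨φ, hφ⟩ := exists_pos_ev x h0
        have h1 := (F_first hK.cpt (hs_bound hK.cpt hK.ne hM) hp φ).1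
        rw [← hφ] at h1
        have h2 : F K x ≤ ℓ := hx
        have h3 := (abs_le.1 (N_bound (hs_bound hK.cpt hK.ne hM) φ)).1
        have h4 := le_abs_self ℓ
        have h5 := abs_nonneg ℓ
        linarith
  · obtain ⟨x, hx⟩ := hK.int
    refine ⟨x, ?_⟩
    rw [mem_interior]
    refine ⟨{y | F K y < ℓ}, fun y (hy : F K y < ℓ) => (le_of_lt hy : F K y ≤ ℓ), isOpen_lt (cont_F hK.cpt) continuous_const, ?_⟩
    show F K x < ℓ
    rw [F_eq_W hK.cpt (interior_subset hx)]
    exact hℓ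

theorem exists_near (a : ℝ) : ∃ k : ℤ, |a - k * (2 * Real.pi)| ≤ Real.pi := by
  have hpi := Real.pi_pos
  refine ⟨round (a / (2 * Real.pi)), ?_⟩
  have h := abs_sub_round (a / (2 * Real.pi))
  have e : a - (round (a / (2 * Real.pi)) : ℤ) * (2 * Real.pi) =
      (a / (2 * Real.pi) - round (a / (2 * Real.pi))) * (2 * Real.pi) := by
    field_simp
  rw [e, abs_mul, abs_of_pos Real.two_pi_pos]
  calc |a / (2 * Real.pi) - round (a / (2 * Real.pi))| * (2 * Real.pi) ≤ 1 / 2 * (2 * Real.pi) := by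
        gcongr
    _ = Real.pi := by ring

variable {K : Set E2} {s : ℕ} {n : ℝ} {G : ℝ → ℝ} {B C ρ₀ : ℝ}

/-- the constant for the support function -/
noncomputable def Cc (B C : ℝ) : ℝ := Ca B C + B ^ 2

theorem Ca_nonneg (h : Ex K s n G B C ρ₀) : 0 ≤ Ca B C := by
  have := h.hB
  have := h.hC
  unfold Ca; positivity

theorem Ex.supp (h : Ex K s n G B C ρ₀) (hK : Body K) {R : ℝ} (hR : 2 * ρ₀ + B + C ≤ R)
    (hW : W K < 2 * R + n) (θ : ℝ) :
    |hs (Lev K (2 * R + n)) θ - (R - G θ * w s R / 2)| ≤ Cc B C * w s R / R := by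
  have hB := h.hB
  have hC := h.hC
  have h1 := h.hρ
  have hpi := Real.pi_pos
  have hR0 : 0 < R := by linarith
  have hR1 : 1 ≤ R := by linarith
  have hw := w_pos (s := s) hR0
  have hw1 := w_le_one (s := s) hR1
  have hCa := Ca_nonneg h
  have hA := body_lev hK hW
  obtain ⟨r, hr1, hr2, hr3⟩ := h.exists_r hK.cpt hR θ
  have hrA : r • ev θ ∈ Lev K (2 * R + n) := hr3.le
  have hlow := le_hs hA.cpt hrA θ
  rw [ip_smul, ip_ev, sub_self, Real.cos_zero, mul_one] at hlow
  have hrge := h.rad_ge hR hr1 hr3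
  have hrcr := (abs_le.1 (h.crude_r hR hr1 hr3)).1
  have hBB : 0 ≤ B ^ 2 * w s R / R := by positivity
  have eC : Cc B C * w s R / R = Ca B C * w s R / R + B ^ 2 * w s R / R := by
    unfold Cc; ring
  rw [abs_le]
  constructor
  · linarith
  -- upper bound
  obtain ⟨x, hx, hxe⟩ := exists_hs hA.cpt hA.ne θ
  have hxpos : 0 < ip x θ := by rw [← hxe]; linarith
  have hx0 : x ≠ 0 := by
    rintro rfl
    simp [ip] at hxpos
  obtain ⟨φ0, hφ0⟩ := exists_pos_ev x hx0
  obtain ⟨k, hk⟩ := exists_near (θ - φ0)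
  set δ := θ - φ0 - k * (2 * Real.pi) with hδ
  set ρ := ‖x‖ with hρdef
  have hevφ : ev (θ - δ) = ev φ0 := by
    have : θ - δ = φ0 + k * (2 * Real.pi) := by rw [hδ]; ring
    rw [this]
    unfold ev
    rw [Real.cos_add_int_mul_two_pi, Real.sin_add_int_mul_two_pi]
  have hxφ : x = ρ • ev (θ - δ) := by rw [hevφ]; exact hφ0
  have hip : ip x θ = ρ * Real.cos δ := by
    conv_lhs => rw [hxφ]
    rw [ip_smul, ip_ev]
    congr 2
    ring
  have hρ0 : 0 ≤ ρ := norm_nonneg _
  have hcosle := Real.cos_le_one δ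
  have hρge : ip x θ ≤ ρ := by
    rw [hip]
    nlinarith
  have hρr : r ≤ ρ := by linarith
  have hρpos : 0 < ρ := by linarith
  have hcospos : 0 < Real.cos δ := by
    by_contra hc
    push Not at hc
    have : ρ * Real.cos δ ≤ 0 := mul_nonpos_of_nonneg_of_nonpos hρ0 hc
    linarith
  have hFx : F K (ρ • ev (θ - δ)) ≤ 2 * R + n := by rw [← hxφ]; exact hx
  have hup := h.rad_le hR (by linarith : R / 2 ≤ ρ) (by linarith) hFx
  have hG := (abs_le.1 (h.lip (θ - δ) θ)).1
  have eδ : |θ - δ - θ| = |δ| := by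
    rw [show θ - δ - θ = -δ by ring, abs_neg]
  rw [eδ] at hG
  -- `Y`
  set Y := R - G θ * w s R / 2 + Ca B C * w s R / R with hY
  have hYup : ρ ≤ Y + B * |δ| * w s R / 2 := by
    have : -(G (θ - δ)) * w s R ≤ (-(G θ) + B * |δ|) * w s R :=
      mul_le_mul_of_nonneg_right (by linarith) hw.le
    linarith
  have hYge : R / 2 ≤ Y := by
    have h2 : G θ * w s R ≤ B * 1 := by
      calc G θ * w s R ≤ |G θ| * w s R := mul_le_mul_of_nonneg_right (le_abs_self _) hw.le
        _ ≤ B * 1 := mul_le_mul (h.bd θ) hw1 hw.le hB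
    have h3 : 0 ≤ Ca B C * w s R / R := by positivity
    linarith
  have hcosq := Real.cos_le_one_sub_mul_cos_sq hk
  have hδ2 : δ ^ 2 = |δ| ^ 2 := (sq_abs δ).symm
  have hpi2 : Real.pi ^ 2 ≤ 16 := by
    have := Real.pi_le_four
    nlinarith
  have hkey : ρ * Real.cos δ ≤ Y + B ^ 2 * w s R / R := by
    have t0 : ρ * Real.cos δ ≤ (Y + B * |δ| * w s R / 2) * Real.cos δ :=
      mul_le_mul_of_nonneg_right hYup hcospos.le
    have t1 : B * |δ| * w s R / 2 * Real.cos δ ≤ B * |δ| * w s R / 2 := by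
      apply mul_le_of_le_one_right _ hcosle
      positivity
    have t2 : Y * Real.cos δ ≤ Y * (1 - 2 / Real.pi ^ 2 * |δ| ^ 2) := by
      rw [← hδ2]
      exact mul_le_mul_of_nonneg_left hcosq (by linarith)
    have t3 : B * |δ| * w s R / 2 - Y * (2 / Real.pi ^ 2 * |δ| ^ 2) ≤ B ^ 2 * w s R / R := by
      have u1 : R / 2 * (1 / 8 * |δ| ^ 2) ≤ Y * (2 / Real.pi ^ 2 * |δ| ^ 2) := by
        apply mul_le_mul hYge _ (by positivity) (by linarith)
        apply mul_le_mul_of_nonneg_right _ (by positivity)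
        rw [div_le_div_iff₀ (by norm_num) (by positivity)]
        linarith
      have u2 : B * |δ| * w s R / 2 - R / 2 * (1 / 8 * |δ| ^ 2) ≤ B ^ 2 * (w s R) ^ 2 / R := by
        rw [le_div_iff₀ hR0]
        have hsq := sq_nonneg (B * w s R - R * |δ| / 4)
        have e : (B * |δ| * w s R / 2 - R / 2 * (1 / 8 * |δ| ^ 2)) * R =
            B ^ 2 * w s R ^ 2 - (B * w s R - R * |δ| / 4) ^ 2 := by ring
        rw [e]
        linarith
      have u3 : B ^ 2 * (w s R) ^ 2 / R ≤ B ^ 2 * w s R / R := by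
        apply div_le_div_of_nonneg_right _ hR0.le
        have : (w s R) ^ 2 ≤ w s R := by
          rw [sq]
          exact mul_le_of_le_one_left hw.le hw1
        exact mul_le_mul_of_nonneg_left this (sq_nonneg B)
      linarith
    linarith
  rw [hxe, hip, eC]
  linarith

end Q188.Str
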