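import Mathlib

/-!
# Integrals of a maximum: the switch lemma
-/

set_option autoImplicit false
open MeasureTheory Set Filter Topology

namespace Q188.Str

theorem trunc_cont (E a : ℝ) : Continuous fun x : ℝ => max 0 (E - a * x) := by fun_prop

theorem trunc_small {a E L : ℝ} (ha : 0 < a) (hL : 0 ≤ L) (h : a * L ≤ E) :
    ∫ x in (0 : ℝ)..L, max 0 (E - a * x) = E * L - a * L ^ 2 / 2 := by
  have e : ∫ x in (0 : ℝ)..L, max 0 (E - a * x) = ∫ x in (0 : ℝ)..L, (E - a * x) := by
    apply intervalIntegral.integral_congr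
    intro x hx
    rw [uIcc_of_le hL] at hx
    simp only
    apply max_eq_right
    have := mul_le_mul_of_nonneg_left hx.2 ha.le
    linarith
  rw [e, intervalIntegral.integral_sub (by simp) (by
    apply Continuous.intervalIntegrable; fun_prop), intervalIntegral.integral_const,
    intervalIntegral.integral_const_mul, integral_id]
  simp
  ring

theorem trunc_eq {a E L : ℝ} (ha : 0 < a) (hE : 0 ≤ E) (h : E ≤ a * L) :
    ∫ x in (0 : ℝ)..L, max 0 (E - a * x) = E ^ 2 / (2 * a) := by
  have h0 : 0 ≤ E / a := by positivity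
  have h1 : E / a ≤ L := by rw [div_le_iff₀ ha]; linarith
  rw [← intervalIntegral.integral_add_adjacent_intervals (b := E / a)
    ((trunc_cont E a).intervalIntegrable _ _) ((trunc_cont E a).intervalIntegrable _ _),
    trunc_small ha h0 (by rw [mul_div_cancel₀ _ ha.ne'])]
  have e : ∫ x in (E / a)..L, max 0 (E - a * x) = ∫ x in (E / a)..L, (0 : ℝ) := by
    apply intervalIntegral.integral_congr
    intro x hx
    rw [uIcc_of_le h1] at hx
    simp only
    apply max_eq_left
    have := (div_le_iff₀ ha).1 hx.1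
    linarith
  rw [e]
  simp
  field_simp
  ring

theorem trunc_le {a E L : ℝ} (ha : 0 < a) (hE : 0 ≤ E) (hL : 0 ≤ L) :
    ∫ x in (0 : ℝ)..L, max 0 (E - a * x) ≤ E ^ 2 / (2 * a) := by
  rcases le_total E (a * L) with h | h
  · exact (trunc_eq ha hE h).le
  · rw [trunc_small ha hL h, le_div_iff₀ (by positivity)]
    nlinarith [sq_nonneg (E - a * L)]

theorem sin_ge {a x : ℝ} (ha : 0 ≤ a) (h1 : a ≤ x) (h2 : x ≤ Real.pi - a) :
    Real.sin a ≤ Real.sin x := by
  rcases le_total x (Real.pi / 2) with h | h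
  · exact Real.sin_le_sin_of_le_of_le_pi_div_two (by linarith [Real.pi_pos]) h h1
  · rw [← Real.sin_pi_sub x]
    exact Real.sin_le_sin_of_le_of_le_pi_div_two (by linarith [Real.pi_pos]) (by linarith)
      (by linarith)

/-- slope constant -/
noncomputable def kap (α : ℝ) : ℝ := 2 * Real.sin (α / 2) / Real.pi

theorem kap_pos {α : ℝ} (h0 : 0 < α) (h1 : α ≤ Real.pi / 2) : 0 < kap α := by
  have hpi := Real.pi_pos
  unfold kap
  have : 0 < Real.sin (α / 2) := Real.sin_pos_of_pos_of_lt_pi (by linarith) (by linarith)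
  positivity

theorem cos_inner {α ψ : ℝ} (h1 : α ≤ Real.pi / 2) (h2 : 0 ≤ ψ) (h3 : ψ ≤ α) :
    kap α * (α - ψ) ≤ Real.cos ψ - Real.cos α := by
  have hpi := Real.pi_pos
  rw [Real.cos_sub_cos]
  have e : Real.sin ((ψ - α) / 2) = - Real.sin ((α - ψ) / 2) := by
    rw [← Real.sin_neg]; congr 1; ring
  rw [e]
  have s1 : Real.sin (α / 2) ≤ Real.sin ((ψ + α) / 2) :=
    sin_ge (by linarith) (by linarith) (by linarith)
  have s2 : 2 / Real.pi * ((α - ψ) / 2) ≤ Real.sin ((α - ψ) / 2) :=
    Real.mul_le_sin (by linarith) (by linarith)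
  have s0 : 0 ≤ Real.sin (α / 2) := Real.sin_nonneg_of_nonneg_of_le_pi (by linarith) (by linarith)
  have s3 : 0 ≤ 2 / Real.pi * ((α - ψ) / 2) := mul_nonneg (by positivity) (by linarith)
  calc kap α * (α - ψ) = 2 * (Real.sin (α / 2) * (2 / Real.pi * ((α - ψ) / 2))) := by
        unfold kap; ring
    _ ≤ 2 * (Real.sin ((ψ + α) / 2) * Real.sin ((α - ψ) / 2)) := by
        have s4 := s0.trans s1
        gcongr
    _ = _ := by ring

theorem cos_outer {α ψ : ℝ} (h0 : 0 ≤ α) (h1 : α ≤ Real.pi / 2) (h2 : α ≤ ψ) (h3 : ψ ≤ Real.pi) :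
    kap α * (ψ - α) ≤ Real.cos α - Real.cos ψ := by
  have hpi := Real.pi_pos
  rw [Real.cos_sub_cos]
  have e : Real.sin ((α - ψ) / 2) = - Real.sin ((ψ - α) / 2) := by
    rw [← Real.sin_neg]; congr 1; ring
  rw [e]
  have s1 : Real.sin (α / 2) ≤ Real.sin ((α + ψ) / 2) :=
    sin_ge (by linarith) (by linarith) (by linarith)
  have s2 : 2 / Real.pi * ((ψ - α) / 2) ≤ Real.sin ((ψ - α) / 2) :=
    Real.mul_le_sin (by linarith) (by linarith)
  have s0 : 0 ≤ Real.sin (α / 2) := Real.sin_nonneg_of_nonneg_of_le_pi (by linarith) (by linarith)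
  have s3 : 0 ≤ 2 / Real.pi * ((ψ - α) / 2) := mul_nonneg (by positivity) (by linarith)
  calc kap α * (ψ - α) = 2 * (Real.sin (α / 2) * (2 / Real.pi * ((ψ - α) / 2))) := by
        unfold kap; ring
    _ ≤ 2 * (Real.sin ((α + ψ) / 2) * Real.sin ((ψ - α) / 2)) := by
        have s4 := s0.trans s1
        gcongr
    _ = _ := by ring

/-- the switch lemma on a half circle -/
theorem switch_half {H : ℝ → ℝ} (hH : Continuous H) {α r E : ℝ} (h0 : 0 < α)
    (h1 : α ≤ Real.pi / 2) (hr : 0 < r) (hE : ∀ ψ, |H ψ - r * Real.cos α| ≤ E) :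
    r * Real.sin α + (∫ ψ in α..Real.pi, H ψ) ≤
        ∫ ψ in (0 : ℝ)..Real.pi, max (H ψ) (r * Real.cos ψ) ∧
      (∫ ψ in (0 : ℝ)..Real.pi, max (H ψ) (r * Real.cos ψ)) ≤
        r * Real.sin α + (∫ ψ in α..Real.pi, H ψ) + E ^ 2 / (r * kap α) := by
  have hpi := Real.pi_pos
  have hE0 : 0 ≤ E := (abs_nonneg _).trans (hE 0)
  have hk := kap_pos h0 h1
  have hrk : 0 < r * kap α := by positivity
  have hm : Continuous fun ψ => max (H ψ) (r * Real.cos ψ) := by fun_prop
  have hcos : Continuous fun ψ => r * Real.cos ψ := by fun_prop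
  have hsplit := intervalIntegral.integral_add_adjacent_intervals
    (hm.intervalIntegrable (μ := volume) 0 α) (hm.intervalIntegrable (μ := volume) α Real.pi)
  have hc : ∫ ψ in (0 : ℝ)..α, r * Real.cos ψ = r * Real.sin α := by
    rw [intervalIntegral.integral_const_mul, integral_cos, Real.sin_zero, sub_zero]
  have hpa : α ≤ Real.pi := by linarith
  -- inner part
  have i1 : (∫ ψ in (0 : ℝ)..α, r * Real.cos ψ) ≤
      ∫ ψ in (0 : ℝ)..α, max (H ψ) (r * Real.cos ψ) :=
    intervalIntegral.integral_mono_on h0.le (hcos.intervalIntegrable _ _)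
      (hm.intervalIntegrable _ _) fun ψ _ => le_max_right _ _
  have i2 : (∫ ψ in (0 : ℝ)..α, max (H ψ) (r * Real.cos ψ)) ≤
      (∫ ψ in (0 : ℝ)..α, (r * Real.cos ψ + max 0 (E - r * kap α * (α - ψ)))) := by
    apply intervalIntegral.integral_mono_on h0.le (hm.intervalIntegrable _ _)
    · apply Continuous.intervalIntegrable; fun_prop
    · intro ψ hψ
      have a1 := cos_inner h1 hψ.1 hψ.2
      have a2 := mul_le_mul_of_nonneg_left a1 hr.le
      have a3 := (abs_le.1 (hE ψ)).2
      apply max_le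
      · have := le_max_right (0 : ℝ) (E - r * kap α * (α - ψ))
        nlinarith
      · have := le_max_left (0 : ℝ) (E - r * kap α * (α - ψ))
        linarith
  have i3 : (∫ ψ in (0 : ℝ)..α, (r * Real.cos ψ + max 0 (E - r * kap α * (α - ψ)))) ≤
      r * Real.sin α + E ^ 2 / (2 * (r * kap α)) := by
    rw [intervalIntegral.integral_add (hcos.intervalIntegrable _ _)
      (by apply Continuous.intervalIntegrable; fun_prop), hc]
    have e := intervalIntegral.integral_comp_sub_left (a := 0) (b := α)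
      (fun x => max 0 (E - r * kap α * x)) α
    rw [e, sub_self, sub_zero]
    gcongr
    exact trunc_le hrk hE0 h0.le
  -- outer part
  have o1 : (∫ ψ in α..Real.pi, H ψ) ≤ ∫ ψ in α..Real.pi, max (H ψ) (r * Real.cos ψ) :=
    intervalIntegral.integral_mono_on hpa (hH.intervalIntegrable _ _)
      (hm.intervalIntegrable _ _) fun ψ _ => le_max_left _ _
  have o2 : (∫ ψ in α..Real.pi, max (H ψ) (r * Real.cos ψ)) ≤
      (∫ ψ in α..Real.pi, (H ψ + max 0 (E - r * kap α * (ψ - α)))) := by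
    apply intervalIntegral.integral_mono_on hpa (hm.intervalIntegrable _ _)
    · apply Continuous.intervalIntegrable; fun_prop
    · intro ψ hψ
      have a1 := cos_outer h0.le h1 hψ.1 hψ.2
      have a2 := mul_le_mul_of_nonneg_left a1 hr.le
      have a3 := (abs_le.1 (hE ψ)).1
      apply max_le
      · have := le_max_left (0 : ℝ) (E - r * kap α * (ψ - α))
        linarith
      · have := le_max_right (0 : ℝ) (E - r * kap α * (ψ - α))
        nlinarith
  have o3 : (∫ ψ in α..Real.pi, (H ψ + max 0 (E - r * kap α * (ψ - α)))) ≤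
      (∫ ψ in α..Real.pi, H ψ) + E ^ 2 / (2 * (r * kap α)) := by
    rw [intervalIntegral.integral_add (hH.intervalIntegrable _ _)
      (by apply Continuous.intervalIntegrable; fun_prop)]
    have e := intervalIntegral.integral_comp_sub_right (a := α) (b := Real.pi)
      (fun x => max 0 (E - r * kap α * x)) α
    rw [e, sub_self]
    gcongr
    exact trunc_le hrk hE0 (by linarith)
  have hsum : E ^ 2 / (r * kap α) = E ^ 2 / (2 * (r * kap α)) + E ^ 2 / (2 * (r * kap α)) := by
    field_simp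
    ring
  rw [hc] at i1
  constructor
  · linarith
  · rw [hsum]
    linarith

/-- the switch lemma -/
theorem switch {H : ℝ → ℝ} (hH : Continuous H) {α r E : ℝ} (h0 : 0 < α)
    (h1 : α ≤ Real.pi / 2) (hr : 0 < r) (hE : ∀ ψ, |H ψ - r * Real.cos α| ≤ E) :
    2 * (r * Real.sin α) + ((∫ ψ in (-Real.pi)..(-α), H ψ) + ∫ ψ in α..Real.pi, H ψ) ≤
        ∫ ψ in (-Real.pi)..Real.pi, max (H ψ) (r * Real.cos ψ) ∧
      (∫ ψ in (-Real.pi)..Real.pi, max (H ψ) (r * Real.cos ψ)) ≤
        2 * (r * Real.sin α) + ((∫ ψ in (-Real.pi)..(-α), H ψ) + ∫ ψ in α..Real.pi, H ψ) +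
          2 * (E ^ 2 / (r * kap α)) := by
  have hm : Continuous fun ψ => max (H ψ) (r * Real.cos ψ) := by fun_prop
  have hsplit := intervalIntegral.integral_add_adjacent_intervals
    (hm.intervalIntegrable (μ := volume) (-Real.pi) 0)
    (hm.intervalIntegrable (μ := volume) 0 Real.pi)
  obtain ⟨p1, p2⟩ := switch_half hH h0 h1 hr hE
  obtain ⟨q1, q2⟩ := switch_half (H := fun ψ => H (-ψ)) (by fun_prop) h0 h1 hr
    (fun ψ => hE (-ψ))
  have e1 : ∫ ψ in (0 : ℝ)..Real.pi, max (H (-ψ)) (r * Real.cos ψ) =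
      ∫ ψ in (-Real.pi)..0, max (H ψ) (r * Real.cos ψ) := by
    have := intervalIntegral.integral_comp_neg (a := 0) (b := Real.pi)
      (fun ψ => max (H ψ) (r * Real.cos ψ))
    rw [neg_zero] at this
    rw [← this]
    simp only [Real.cos_neg]
  have e2 : ∫ ψ in α..Real.pi, H (-ψ) = ∫ ψ in (-Real.pi)..(-α), H ψ :=
    intervalIntegral.integral_comp_neg H
  rw [e1, e2] at q1 q2
  constructor
  · linarith
  · linarith

end Q188.Str
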