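import Pool.Agent.Q188.Str.Basic
import Pool.Agent.Q188.Str.Switch

/-!
# The level sets of the string construction for long strings
-/

set_option autoImplicit false
open MeasureTheory Metric Set Filter Topology

namespace Q188.Str

open Pool.Agent.Y508

/-- scale -/
noncomputable def w (s : ℕ) (ρ : ℝ) : ℝ := (ρ ^ s)⁻¹

theorem w_pos {s : ℕ} {ρ : ℝ} (h : 0 < ρ) : 0 < w s ρ := by unfold w; positivity

theorem w_le_one {s : ℕ} {ρ : ℝ} (h : 1 ≤ ρ) : w s ρ ≤ 1 := by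
  unfold w
  exact inv_le_one_of_one_le₀ (one_le_pow₀ h)

theorem w_anti {s : ℕ} {R ρ : ℝ} (h0 : 0 < R) (h : R ≤ ρ) : w s ρ ≤ w s R := by
  unfold w
  gcongr

theorem w_two {s : ℕ} (hs : s ≤ 1) {R ρ : ℝ} (h0 : 0 < R) (h : R / 2 ≤ ρ) : w s ρ ≤ 2 * w s R := by
  unfold w
  have hρ : 0 < ρ := by linarith
  interval_cases s
  · norm_num
  · rw [pow_one, pow_one, ← div_eq_mul_inv, le_div_iff₀ h0, inv_mul_le_iff₀ hρ]
    linarith

theorem w_diff {s : ℕ} (hs : s ≤ 1) {R ρ : ℝ} (h0 : 0 < R) (h : R / 2 ≤ ρ) :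
    |w s ρ - w s R| ≤ 2 * w s R * |ρ - R| / R := by
  unfold w
  have hρ : 0 < ρ := by linarith
  interval_cases s
  · simp only [pow_zero, inv_one, sub_self, abs_zero]
    positivity
  · rw [pow_one, pow_one]
    have e : ρ⁻¹ - R⁻¹ = (R - ρ) * (ρ⁻¹ * R⁻¹) := by
      field_simp
    rw [e, abs_mul, abs_sub_comm, abs_of_pos (by positivity : 0 < ρ⁻¹ * R⁻¹)]
    have h1 : ρ⁻¹ ≤ 2 * R⁻¹ := by
      rw [← div_eq_mul_inv, le_div_iff₀ h0, inv_mul_le_iff₀ hρ]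
      linarith
    calc |ρ - R| * (ρ⁻¹ * R⁻¹) ≤ |ρ - R| * ((2 * R⁻¹) * R⁻¹) := by gcongr
      _ = 2 * R⁻¹ * |ρ - R| / R := by ring

theorem w_sqrt {s : ℕ} {R : ℝ} : w s (√2 * R) = w s R / √2 ^ s := by
  unfold w
  rw [mul_pow, mul_inv]
  ring

/-- the data of an expansion of `F` -/
structure Ex (K : Set E2) (s : ℕ) (n : ℝ) (G : ℝ → ℝ) (B C ρ₀ : ℝ) : Prop where
  hsle : s ≤ 1
  hB : 0 ≤ B
  hC : 0 ≤ C
  hρ : 1 ≤ ρ₀
  bd : ∀ φ, |G φ| ≤ B
  lip : ∀ φ θ, |G φ - G θ| ≤ B * |φ - θ|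
  per : ∀ φ, G (φ + 2 * Real.pi) = G φ
  exp : ∀ ρ, ρ₀ ≤ ρ → ∀ φ, |F K (ρ • ev φ) - (2 * ρ + n + G φ * w s ρ)| ≤ C * w s ρ / ρ

variable {K : Set E2} {s : ℕ} {n : ℝ} {G : ℝ → ℝ} {B C ρ₀ : ℝ}

/-- crude form -/
theorem Ex.crude (h : Ex K s n G B C ρ₀) {ρ : ℝ} (hρ : ρ₀ ≤ ρ) (φ : ℝ) :
    |F K (ρ • ev φ) - (2 * ρ + n)| ≤ (B + C) * w s ρ := by
  have h1 := h.exp ρ hρ φ
  have h1ρ : 1 ≤ ρ := h.hρ.trans hρ
  have hw := w_pos (s := s) (by linarith : 0 < ρ)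
  have h2 : C * w s ρ / ρ ≤ C * w s ρ := by
    apply div_le_self (mul_nonneg h.hC hw.le) h1ρ
  have h3 : |G φ * w s ρ| ≤ B * w s ρ := by
    rw [abs_mul, abs_of_pos hw]
    exact mul_le_mul_of_nonneg_right (h.bd φ) hw.le
  rw [abs_le] at h1 h3 ⊢
  constructor <;> linarith [h1.1, h1.2, h3.1, h3.2]

/-- existence of the radial function -/
theorem Ex.exists_r (h : Ex K s n G B C ρ₀) (hK : IsCompact K) {R : ℝ} (hR : 2 * ρ₀ + B + C ≤ R)
    (φ : ℝ) : ∃ r, R / 2 ≤ r ∧ r ≤ 2 * R ∧ F K (r • ev φ) = 2 * R + n := by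
  have hB := h.hB
  have hC := h.hC
  have hρ := h.hρ
  have hcont : Continuous fun r : ℝ => F K (r • ev φ) := by
    apply (cont_F hK).comp
    fun_prop
  have c1 := (abs_le.1 (h.crude (ρ := R / 2) (by linarith) φ)).2
  have c2 := (abs_le.1 (h.crude (ρ := 2 * R) (by linarith) φ)).1
  have w1 : (B + C) * w s (R / 2) ≤ B + C :=
    mul_le_of_le_one_right (by linarith) (w_le_one (by linarith))
  have w2 : (B + C) * w s (2 * R) ≤ B + C :=
    mul_le_of_le_one_right (by linarith) (w_le_one (by linarith))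
  have hiv := intermediate_value_Icc (f := fun r : ℝ => F K (r • ev φ))
    (by linarith : R / 2 ≤ 2 * R) hcont.continuousOn
  have hmem : 2 * R + n ∈ Icc (F K ((R / 2) • ev φ)) (F K ((2 * R) • ev φ)) := by
    constructor <;> linarith
  obtain ⟨r, hr, hr2⟩ := hiv hmem
  exact ⟨r, hr.1, hr.2, hr2⟩

/-- crude bound for the radial function -/
theorem Ex.crude_r (h : Ex K s n G B C ρ₀) {R : ℝ} (hR : 2 * ρ₀ + B + C ≤ R) {φ r : ℝ}
    (hr : R / 2 ≤ r) (hF : F K (r • ev φ) = 2 * R + n) : |r - R| ≤ (B + C) * w s R := by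
  have hB := h.hB
  have hC := h.hC
  have hρ := h.hρ
  have c := h.crude (ρ := r) (by linarith) φ
  rw [hF] at c
  have hw := w_two h.hsle (by linarith : 0 < R) hr
  have h2 : (B + C) * w s r ≤ (B + C) * (2 * w s R) := mul_le_mul_of_nonneg_left hw (by linarith)
  rw [abs_le] at c ⊢
  constructor <;> linarith [c.1, c.2]

/-- the constant -/
noncomputable def Ca (B C : ℝ) : ℝ := B * (B + C) + 2 * C

theorem err_bound (h : Ex K s n G B C ρ₀) {R ρ : ℝ} (hR : 2 * ρ₀ + B + C ≤ R) (hρ : R / 2 ≤ ρ)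
    (hd : |ρ - R| ≤ (B + C) * w s R) (φ : ℝ) :
    |G φ * w s ρ - G φ * w s R| ≤ 2 * (B * (B + C)) * w s R / R := by
  have hB := h.hB
  have hC := h.hC
  have h1 := h.hρ
  have hR0 : 0 < R := by linarith
  have hw := w_pos (s := s) hR0
  have hw1 := w_le_one (s := s) (by linarith : 1 ≤ R)
  have hbd := h.bd φ
  rw [← mul_sub, abs_mul]
  calc |G φ| * |w s ρ - w s R| ≤ B * (2 * w s R * |ρ - R| / R) := by
        apply mul_le_mul hbd (w_diff h.hsle hR0 hρ) (abs_nonneg _) hB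
    _ ≤ B * (2 * w s R * ((B + C) * w s R) / R) := by gcongr
    _ ≤ B * (2 * w s R * ((B + C) * 1) / R) := by gcongr
    _ = 2 * (B * (B + C)) * w s R / R := by ring

theorem err2 (h : Ex K s n G B C ρ₀) {R ρ : ℝ} (hR : 2 * ρ₀ + B + C ≤ R) (hρ : R / 2 ≤ ρ) :
    C * w s ρ / ρ ≤ 4 * C * w s R / R := by
  have hB := h.hB
  have hC := h.hC
  have h1 := h.hρ
  have hR0 : 0 < R := by linarith
  have hρ0 : 0 < ρ := by linarith
  have hw := w_pos (s := s) hR0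
  have hw2 := w_two h.hsle hR0 hρ
  rw [div_le_div_iff₀ hρ0 hR0]
  calc C * w s ρ * R ≤ C * (2 * w s R) * (2 * ρ) := by
        gcongr
        linarith
    _ = 4 * C * w s R * ρ := by ring

/-- one sided bound for the radial function -/
theorem Ex.rad_le (h : Ex K s n G B C ρ₀) {R : ℝ} (hR : 2 * ρ₀ + B + C ≤ R) {φ ρ : ℝ}
    (hρ : R / 2 ≤ ρ) (hlow : R - (B + C) * w s R ≤ ρ) (hF : F K (ρ • ev φ) ≤ 2 * R + n) :
    ρ ≤ R - G φ * w s R / 2 + Ca B C * w s R / R := by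
  have hB := h.hB
  have hC := h.hC
  have h1 := h.hρ
  have c := (abs_le.1 (h.crude (ρ := ρ) (by linarith) φ)).1
  have hw := w_two h.hsle (by linarith : 0 < R) hρ
  have h2 : (B + C) * w s ρ ≤ (B + C) * (2 * w s R) := mul_le_mul_of_nonneg_left hw (by linarith)
  have hd : |ρ - R| ≤ (B + C) * w s R := by
    rw [abs_le]
    constructor <;> linarith
  have e1 := (abs_le.1 (err_bound h hR hρ hd φ)).1
  have e2 := err2 h hR hρ
  have e3 := (abs_le.1 (h.exp ρ (by linarith) φ)).1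
  have e4 : Ca B C * w s R / R = (2 * (B * (B + C)) * w s R / R + 4 * C * w s R / R) / 2 := by
    unfold Ca; ring
  rw [e4]
  linarith

theorem Ex.rad_ge (h : Ex K s n G B C ρ₀) {R : ℝ} (hR : 2 * ρ₀ + B + C ≤ R) {φ r : ℝ}
    (hr : R / 2 ≤ r) (hF : F K (r • ev φ) = 2 * R + n) :
    R - G φ * w s R / 2 - Ca B C * w s R / R ≤ r := by
  have hB := h.hB
  have hC := h.hC
  have h1 := h.hρ
  have hd := h.crude_r hR hr hF
  have e1 := (abs_le.1 (err_bound h hR hr hd φ)).2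
  have e2 := err2 h hR hr
  have e3 := (abs_le.1 (h.exp r (by linarith) φ)).2
  have e4 : Ca B C * w s R / R = (2 * (B * (B + C)) * w s R / R + 4 * C * w s R / R) / 2 := by
    unfold Ca; ring
  rw [e4]
  linarith

theorem Ex.rad_abs (h : Ex K s n G B C ρ₀) {R : ℝ} (hR : 2 * ρ₀ + B + C ≤ R) {φ r : ℝ}
    (hr : R / 2 ≤ r) (hF : F K (r • ev φ) = 2 * R + n) :
    |r - (R - G φ * w s R / 2)| ≤ Ca B C * w s R / R := by
  have h1 := h.rad_ge hR hr hF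
  have h2 := h.rad_le hR hr (by
    have := (abs_le.1 (h.crude_r hR hr hF)).1
    linarith) hF.le
  rw [abs_le]
  constructor <;> linarith

end Q188.Str
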