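import Pool.Agent.Q188.Str.Corner

/-!
# Second order expansion for symmetric bodies
-/

set_option autoImplicit false
open MeasureTheory Metric Set Filter Topology

namespace Q188.Str

open Pool.Agent.Y508

variable {K : Set E2}

theorem hs_pos (hK : Body K) (he : ∀ θ, hs K (θ + Real.pi) = hs K θ) (θ : ℝ) : 0 < hs K θ := by
  have := width_pos hK θ
  rw [he] at this
  linarith

theorem F_split (hK : Body K) (he : ∀ θ, hs K (θ + Real.pi) = hs K θ) {ρ : ℝ} (hρ : 0 < ρ)
    (φ : ℝ) : F K (ρ • ev φ) = 2 * ρ + N K φ +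
      ((∫ x in (0:ℝ)..(Real.pi / 2), max 0 (hs K (φ + (Real.pi / 2 - x)) - ρ * Real.sin x)) +
        ∫ x in (0:ℝ)..(Real.pi / 2), max 0 (hs K (φ + (-(Real.pi / 2) + x)) - ρ * Real.sin x)) := by
  have hpi := Real.pi_pos
  have hc := cont_hs hK.cpt
  have hcφ : Continuous fun ψ => hs K (φ + ψ) := hc.comp (continuous_const.add continuous_id)
  have hmc : Continuous fun ψ => max 0 (hs K (φ + ψ) - ρ * Real.cos ψ) := by fun_prop
  rw [F_polar]
  have s1 := intervalIntegral.integral_add_adjacent_intervals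
    (polar_int hK.cpt ρ φ (-Real.pi) (-(Real.pi / 2))) (polar_int hK.cpt ρ φ (-(Real.pi / 2)) Real.pi)
  have s2 := intervalIntegral.integral_add_adjacent_intervals
    (polar_int hK.cpt ρ φ (-(Real.pi / 2)) (Real.pi / 2)) (polar_int hK.cpt ρ φ (Real.pi / 2) Real.pi)
  have o1 : ∫ ψ in (-Real.pi)..(-(Real.pi / 2)), max (hs K (φ + ψ)) (ρ * Real.cos ψ) =
      ∫ ψ in (-Real.pi)..(-(Real.pi / 2)), hs K (φ + ψ) := by
    apply intervalIntegral.integral_congr
    intro ψ hψ
    rw [uIcc_of_le (by linarith)] at hψ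
    simp only
    apply max_eq_left
    have h1 : Real.cos ψ ≤ 0 := by
      rw [← Real.cos_neg]
      apply Real.cos_nonpos_of_pi_div_two_le_of_le <;> linarith [hψ.1, hψ.2]
    have := hs_pos hK he (φ + ψ)
    have := mul_nonpos_of_nonneg_of_nonpos hρ.le h1
    linarith
  have o2 : ∫ ψ in (Real.pi / 2)..Real.pi, max (hs K (φ + ψ)) (ρ * Real.cos ψ) =
      ∫ ψ in (Real.pi / 2)..Real.pi, hs K (φ + ψ) := by
    apply intervalIntegral.integral_congr
    intro ψ hψ
    rw [uIcc_of_le (by linarith)] at hψ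
    simp only
    apply max_eq_left
    have h1 : Real.cos ψ ≤ 0 := by
      apply Real.cos_nonpos_of_pi_div_two_le_of_le <;> linarith [hψ.1, hψ.2]
    have := hs_pos hK he (φ + ψ)
    have := mul_nonpos_of_nonneg_of_nonpos hρ.le h1
    linarith
  have o3 : ∫ ψ in (-(Real.pi / 2))..(Real.pi / 2), max (hs K (φ + ψ)) (ρ * Real.cos ψ) =
      2 * ρ + ∫ ψ in (-(Real.pi / 2))..(Real.pi / 2), max 0 (hs K (φ + ψ) - ρ * Real.cos ψ) := by
    have e : (fun ψ => max (hs K (φ + ψ)) (ρ * Real.cos ψ)) = fun ψ => ρ * Real.cos ψ +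
        max 0 (hs K (φ + ψ) - ρ * Real.cos ψ) := by
      funext ψ
      rw [← max_add_add_left, add_zero, add_sub_cancel, max_comm]
    rw [e, intervalIntegral.integral_add (by apply Continuous.intervalIntegrable; fun_prop)
      (hmc.intervalIntegrable _ _), intervalIntegral.integral_const_mul, integral_cos,
      Real.sin_neg, Real.sin_pi_div_two]
    ring
  have o4 := intervalIntegral.integral_add_adjacent_intervals
    (hmc.intervalIntegrable (μ := volume) (-(Real.pi / 2)) 0) (hmc.intervalIntegrable 0 (Real.pi / 2))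
  have o5 : ∫ ψ in (0:ℝ)..(Real.pi / 2), max 0 (hs K (φ + ψ) - ρ * Real.cos ψ) =
      ∫ x in (0:ℝ)..(Real.pi / 2), max 0 (hs K (φ + (Real.pi / 2 - x)) - ρ * Real.sin x) := by
    have h := intervalIntegral.integral_comp_sub_left (a := 0) (b := Real.pi / 2)
      (fun ψ => max 0 (hs K (φ + ψ) - ρ * Real.cos ψ)) (Real.pi / 2)
    rw [sub_self, sub_zero] at h
    rw [← h]
    congr 1
    funext x
    rw [Real.cos_pi_div_two_sub]
  have o6 : ∫ ψ in (-(Real.pi / 2))..(0:ℝ), max 0 (hs K (φ + ψ) - ρ * Real.cos ψ) =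
      ∫ x in (0:ℝ)..(Real.pi / 2), max 0 (hs K (φ + (-(Real.pi / 2) + x)) - ρ * Real.sin x) := by
    have h := intervalIntegral.integral_comp_add_left (a := 0) (b := Real.pi / 2)
      (fun ψ => max 0 (hs K (φ + ψ) - ρ * Real.cos ψ)) (-(Real.pi / 2))
    rw [add_zero, neg_add_cancel] at h
    rw [← h]
    congr 1
    funext x
    have : Real.cos (-(Real.pi / 2) + x) = Real.sin x := by
      rw [neg_add_eq_sub, Real.cos_sub_pi_div_two]
    rw [this]
  have hout := outer_arcs hK.cpt φ (Real.pi / 2)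
  have e2 : 2 * Real.pi - Real.pi / 2 = 3 * Real.pi / 2 := by ring
  rw [e2] at hout
  unfold N
  rw [← hout]
  rw [← s1, ← s2, o1, o2, o3, ← o4, o5, o6]
  ring

theorem N_const (he : ∀ θ, hs K (θ + Real.pi) = hs K θ) (φ : ℝ) : N K φ = N K 0 := by
  have hp : Function.Periodic (hs K) Real.pi := he
  unfold N
  rw [intervalIntegral.integral_comp_add_left (fun t => hs K t) φ,
    intervalIntegral.integral_comp_add_left (fun t => hs K t) 0]
  have h1 := hp.intervalIntegral_add_eq (φ + Real.pi / 2) (0 + Real.pi / 2)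
  have e1 : φ + 3 * Real.pi / 2 = φ + Real.pi / 2 + Real.pi := by ring
  have e2 : (0:ℝ) + 3 * Real.pi / 2 = 0 + Real.pi / 2 + Real.pi := by ring
  rw [e1, e2]
  exact h1

theorem ex_second (hK : Body K) (he : ∀ θ, hs K (θ + Real.pi) = hs K θ) {M : ℝ} (hM0 : 0 < M)
    (hM : ∀ x ∈ K, ‖x‖ ≤ M) : Ex K 1 (N K 0) (fun φ => hs K (φ + Real.pi / 2) ^ 2) (2 * M ^ 2)
      (2 * (M ^ 2 * (M + 1))) (2 * (M + 1) + M ^ 2) := by
  have hpi := Real.pi_pos
  have hb : ∀ θ, |hs K θ| ≤ M := hs_bound hK.cpt hK.ne hM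
  have hl := hs_lip hK.cpt hK.ne hM
  have hpos := hs_pos hK he
  refine ⟨le_rfl, by positivity, by positivity, by nlinarith, ?_, ?_, ?_, ?_⟩
  · intro φ
    rw [abs_of_nonneg (sq_nonneg _)]
    have := (abs_le.1 (hb (φ + Real.pi / 2))).2
    have := hpos (φ + Real.pi / 2)
    nlinarith
  · intro φ θ
    have e : hs K (φ + Real.pi / 2) ^ 2 - hs K (θ + Real.pi / 2) ^ 2 =
        (hs K (φ + Real.pi / 2) + hs K (θ + Real.pi / 2)) *
          (hs K (φ + Real.pi / 2) - hs K (θ + Real.pi / 2)) := by ring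
    rw [e, abs_mul]
    have h1 := hl (φ + Real.pi / 2) (θ + Real.pi / 2)
    rw [add_sub_add_right_eq_sub] at h1
    have h2 : |hs K (φ + Real.pi / 2) + hs K (θ + Real.pi / 2)| ≤ 2 * M := by
      refine (abs_add_le _ _).trans ?_
      linarith [hb (φ + Real.pi / 2), hb (θ + Real.pi / 2)]
    calc _ ≤ (2 * M) * (M * |φ - θ|) := by gcongr
      _ = 2 * M ^ 2 * |φ - θ| := by ring
  · intro φ
    rw [show φ + 2 * Real.pi + Real.pi / 2 = φ + Real.pi / 2 + 2 * Real.pi by ring, hs_two_pi]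
  · intro ρ hρ φ
    have hρ0 : 0 < ρ := by nlinarith
    have hw : w 1 ρ = 1 / ρ := by simp [w]
    rw [F_split hK he hρ0, N_const he φ, hw]
    have hk1c : Continuous fun x => hs K (φ + (Real.pi / 2 - x)) :=
      (cont_hs hK.cpt).comp (by fun_prop)
    have hk2c : Continuous fun x => hs K (φ + (-(Real.pi / 2) + x)) :=
      (cont_hs hK.cpt).comp (by fun_prop)
    have c1 := corner (k := fun x => hs K (φ + (Real.pi / 2 - x))) hk1c hM0
      (fun x => (hpos _).le) (fun x => (abs_le.1 (hb _)).2) (by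
        intro x hx
        have := hl (φ + (Real.pi / 2 - x)) (φ + (Real.pi / 2 - 0))
        have e : φ + (Real.pi / 2 - x) - (φ + (Real.pi / 2 - 0)) = -x := by ring
        rw [e, abs_neg, abs_of_nonneg hx] at this
        exact this) hρ
    have c2 := corner (k := fun x => hs K (φ + (-(Real.pi / 2) + x))) hk2c hM0
      (fun x => (hpos _).le) (fun x => (abs_le.1 (hb _)).2) (by
        intro x hx
        have := hl (φ + (-(Real.pi / 2) + x)) (φ + (-(Real.pi / 2) + 0))
        have e : φ + (-(Real.pi / 2) + x) - (φ + (-(Real.pi / 2) + 0)) = x := by ring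
        rw [e, abs_of_nonneg hx] at this
        exact this) hρ
    simp only [sub_zero, add_zero] at c1 c2
    have e1 : hs K (φ + -(Real.pi / 2)) = hs K (φ + Real.pi / 2) := by
      rw [← he (φ + -(Real.pi / 2))]
      congr 1
      ring
    rw [e1] at c2
    have e3 : 2 * (M ^ 2 * (M + 1)) * (1 / ρ) / ρ = 2 * (M ^ 2 * (M + 1) / ρ ^ 2) := by
      field_simp
    have e4 : hs K (φ + Real.pi / 2) ^ 2 * (1 / ρ) = 2 * (hs K (φ + Real.pi / 2) ^ 2 / (2 * ρ)) := by
      field_simp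
    rw [e3, e4]
    rw [abs_le] at c1 c2 ⊢
    constructor <;> linarith [c1.1, c1.2, c2.1, c2.2]

end Q188.Str
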