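import Pool.Agent.Q188.Str.Level

/-!
# Transitivity and expansions
-/

set_option autoImplicit false
open MeasureTheory Metric Set Filter Topology

namespace Q188.Str

open Pool.Agent.Y508

/-- the consequence of transitivity that is used -/
def TP (K : Set E2) : Prop := ∀ ℓ, W K < ℓ → ∀ P P' : E2, ℓ < F K P → F K P = F K P' →
  F (Lev K ℓ) P = F (Lev K ℓ) P'

/-- the operator -/
noncomputable def U (s : ℕ) (G : ℝ → ℝ) (φ : ℝ) : ℝ :=
  √2 / √2 ^ s * G φ + ∫ ψ in (Real.pi / 4)..(7 * Real.pi / 4), G (φ + ψ)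

variable {K : Set E2} {s : ℕ} {n : ℝ} {G : ℝ → ℝ} {B C ρ₀ : ℝ}

theorem Ex.cont (h : Ex K s n G B C ρ₀) : Continuous G := by
  have : LipschitzWith (Real.toNNReal B) G := by
    apply LipschitzWith.of_dist_le_mul
    intro x y
    rw [Real.dist_eq, Real.dist_eq, Real.coe_toNNReal _ h.hB]
    exact h.lip x y
  exact this.continuous

/-- constant -/
noncomputable def Dd (B C : ℝ) : ℝ := 2 * B + C + Cc B C

/-- constant -/
noncomputable def Cd (B C : ℝ) : ℝ :=
  2 * Ca B C + 6 * Cc B C + 4 * Dd B C ^ 2 / kap (Real.pi / 4)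

theorem Ex.second (h : Ex K s n G B C ρ₀) (hK : Body K) {R : ℝ} (hR : 2 * ρ₀ + B + C ≤ R)
    (hW : W K < 2 * R + n) {φ r : ℝ} (hr : √2 * R / 2 ≤ r)
    (hF : F K (r • ev φ) = 2 * (√2 * R) + n) :
    |F (Lev K (2 * R + n)) (r • ev φ) -
      (√2 * (√2 * R) + 3 * Real.pi / 2 * R - w s R / 2 * U s G φ)| ≤ Cd B C * w s R / R := by
  have hB := h.hB
  have hC := h.hC
  have h1 := h.hρ
  have hpi := Real.pi_pos
  have hR0 : 0 < R := by linarith
  have hR1 : 1 ≤ R := by linarith
  have hw := w_pos (s := s) hR0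
  have hw1 := w_le_one (s := s) hR1
  have hCa := Ca_nonneg h
  have hCc : 0 ≤ Cc B C := by unfold Cc; positivity
  have hA := body_lev hK hW
  have h2a : 1 ≤ √2 := by rw [Real.one_le_sqrt]; norm_num
  have h2b : √2 ≤ 2 := by rw [Real.sqrt_le_left (by norm_num)]; norm_num
  have h2s : √2 * √2 = 2 := Real.mul_self_sqrt (by norm_num)
  have h20 : (0 : ℝ) < √2 := by positivity
  have hRR' : R ≤ √2 * R := by nlinarith
  have hR' : 2 * ρ₀ + B + C ≤ √2 * R := by linarith
  have hrR : R / 2 ≤ r := by linarith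
  have hr0 : 0 < r := by linarith
  have hwR' : w s (√2 * R) ≤ w s R := w_anti hR0 hRR'
  have hwR'0 := w_pos (s := s) (by linarith : 0 < √2 * R)
  have hsup := h.supp hK hR hW
  set A := Lev K (2 * R + n) with hAdef
  have hcr := h.crude_r hR' hr hF
  have hab := h.rad_abs hR' hr hF
  -- the quantity `E`
  have hkap := kap_pos (α := Real.pi / 4) (by positivity) (by linarith)
  have hE : ∀ ψ, |hs A (φ + ψ) - r * Real.cos (Real.pi / 4)| ≤ Dd B C * w s R := by
    intro ψ
    rw [Real.cos_pi_div_four]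
    have a1 := hsup (φ + ψ)
    have a2 : |G (φ + ψ) * w s R / 2| ≤ B * w s R := by
      rw [abs_div, abs_mul, abs_of_pos hw, abs_of_pos (by norm_num : (0 : ℝ) < 2)]
      have := mul_le_mul_of_nonneg_right (h.bd (φ + ψ)) hw.le
      have := mul_nonneg (abs_nonneg (G (φ + ψ))) hw.le
      linarith
    have a3 : Cc B C * w s R / R ≤ Cc B C * w s R := by
      apply div_le_self (by positivity) hR1
    have a4 : |(√2 * R - r) * (√2 / 2)| ≤ (B + C) * w s R := by
      rw [abs_mul, abs_sub_comm, abs_of_pos (by positivity : 0 < √2 / 2)]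
      calc |r - √2 * R| * (√2 / 2) ≤ |r - √2 * R| * 1 := by
            gcongr
            linarith
        _ ≤ (B + C) * w s (√2 * R) := by linarith
        _ ≤ (B + C) * w s R := by gcongr
    have e : hs A (φ + ψ) - r * (√2 / 2) = (hs A (φ + ψ) - (R - G (φ + ψ) * w s R / 2)) -
        G (φ + ψ) * w s R / 2 + (√2 * R - r) * (√2 / 2) := by
      have : √2 * R * (√2 / 2) = R := by
        calc √2 * R * (√2 / 2) = (√2 * √2) * R / 2 := by ring
          _ = R := by rw [h2s]; ring
      linarith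
    rw [e]
    refine (abs_add_le _ _).trans ?_
    have b1 := abs_sub (hs A (φ + ψ) - (R - G (φ + ψ) * w s R / 2)) (G (φ + ψ) * w s R / 2)
    have eD : Dd B C * w s R = B * w s R + (B + C) * w s R + Cc B C * w s R := by
      unfold Dd; ring
    rw [eD]
    linarith
  have hc : Continuous fun ψ => hs A (φ + ψ) :=
    (cont_hs hA.cpt).comp (continuous_const.add continuous_id)
  have hsw := switch (H := fun ψ => hs A (φ + ψ)) hc (α := Real.pi / 4) (r := r)
    (E := Dd B C * w s R) (by positivity) (by linarith) hr0 hE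
  rw [← F_polar, outer_arcs hA.cpt φ (Real.pi / 4), Real.sin_pi_div_four] at hsw
  have e7 : 2 * Real.pi - Real.pi / 4 = 7 * Real.pi / 4 := by ring
  rw [e7] at hsw
  -- the integral
  have hGc := h.cont
  have hI : |(∫ ψ in (Real.pi / 4)..(7 * Real.pi / 4), hs A (φ + ψ)) -
      (3 * Real.pi / 2 * R - w s R / 2 * ∫ ψ in (Real.pi / 4)..(7 * Real.pi / 4), G (φ + ψ))| ≤
        6 * Cc B C * w s R / R := by
    have e1 : (3 * Real.pi / 2 * R - w s R / 2 *
        ∫ ψ in (Real.pi / 4)..(7 * Real.pi / 4), G (φ + ψ)) =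
        ∫ ψ in (Real.pi / 4)..(7 * Real.pi / 4), (R - w s R / 2 * G (φ + ψ)) := by
      rw [intervalIntegral.integral_sub (by simp) (by
        apply Continuous.intervalIntegrable; fun_prop), intervalIntegral.integral_const,
        intervalIntegral.integral_const_mul, smul_eq_mul]
      ring
    rw [e1, ← intervalIntegral.integral_sub (hc.intervalIntegrable _ _) (by
      apply Continuous.intervalIntegrable; fun_prop), ← Real.norm_eq_abs]
    refine (intervalIntegral.norm_integral_le_of_norm_le_const (C := Cc B C * w s R / R) ?_).trans ?_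
    · intro ψ _
      rw [Real.norm_eq_abs]
      have := hsup (φ + ψ)
      have e2 : hs A (φ + ψ) - (R - w s R / 2 * G (φ + ψ)) =
          hs A (φ + ψ) - (R - G (φ + ψ) * w s R / 2) := by ring
      rw [e2]
      exact this
    · have e3 : 7 * Real.pi / 4 - Real.pi / 4 = 3 * Real.pi / 2 := by ring
      rw [e3, abs_of_pos (by positivity)]
      have h4 := Real.pi_le_four
      have h5 : 0 ≤ Cc B C * w s R / R := by positivity
      calc Cc B C * w s R / R * (3 * Real.pi / 2) ≤ Cc B C * w s R / R * 6 := by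
            gcongr
            linarith
        _ = 6 * Cc B C * w s R / R := by ring
  -- the radial part
  have hrad : |2 * (r * (√2 / 2)) - (√2 * (√2 * R) - w s R / 2 * (√2 / √2 ^ s * G φ))| ≤
      2 * Ca B C * w s R / R := by
    have e1 : 2 * (r * (√2 / 2)) - (√2 * (√2 * R) - w s R / 2 * (√2 / √2 ^ s * G φ)) =
        √2 * (r - (√2 * R - G φ * w s (√2 * R) / 2)) := by
      rw [w_sqrt]
      ring
    rw [e1, abs_mul, abs_of_pos h20]
    calc √2 * |r - (√2 * R - G φ * w s (√2 * R) / 2)| ≤ 2 * (Ca B C * w s (√2 * R) / (√2 * R)) := by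
          gcongr
      _ ≤ 2 * (Ca B C * w s R / R) := by gcongr
      _ = 2 * Ca B C * w s R / R := by ring
  have hlast : 2 * ((Dd B C * w s R) ^ 2 / (r * kap (Real.pi / 4))) ≤
      4 * Dd B C ^ 2 / kap (Real.pi / 4) * w s R / R := by
    have hww : w s R ^ 2 ≤ w s R := by
      rw [sq]
      exact mul_le_of_le_one_left hw.le hw1
    calc 2 * ((Dd B C * w s R) ^ 2 / (r * kap (Real.pi / 4)))
        ≤ 2 * ((Dd B C ^ 2 * w s R) / (R / 2 * kap (Real.pi / 4))) := by
          rw [mul_pow]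
          gcongr
      _ = 4 * Dd B C ^ 2 / kap (Real.pi / 4) * w s R / R := by
          field_simp
          ring
  have eCd : Cd B C * w s R / R = 2 * Ca B C * w s R / R + 6 * Cc B C * w s R / R +
      4 * Dd B C ^ 2 / kap (Real.pi / 4) * w s R / R := by
    unfold Cd; ring
  have eU : w s R / 2 * U s G φ = w s R / 2 * (√2 / √2 ^ s * G φ) +
      w s R / 2 * ∫ ψ in (Real.pi / 4)..(7 * Real.pi / 4), G (φ + ψ) := by
    unfold U; ring
  have hpos : 0 ≤ 4 * Dd B C ^ 2 / kap (Real.pi / 4) * w s R / R := by positivity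
  rw [eCd, eU]
  rw [abs_le] at hI hrad ⊢
  obtain ⟨s1, s2⟩ := hsw
  constructor
  · linarith [hI.1, hrad.1]
  · linarith [hI.2, hrad.2]

theorem Ex.main (h : Ex K s n G B C ρ₀) (hK : Body K) (hT : TP K) (φ φ' : ℝ) :
    U s G φ = U s G φ' := by
  have hB := h.hB
  have hC := h.hC
  have h1 := h.hρ
  by_contra hne
  have hpos : 0 < |U s G φ - U s G φ'| := abs_pos.2 (sub_ne_zero.2 hne)
  set R := max (2 * ρ₀ + B + C) (max (|W K| + |n| + 1) (4 * Cd B C / |U s G φ - U s G φ'| + 1))
    with hRdef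
  have hR : 2 * ρ₀ + B + C ≤ R := le_max_left _ _
  have hR2 : |W K| + |n| + 1 ≤ R := (le_max_left _ _).trans (le_max_right _ _)
  have hR3 : 4 * Cd B C / |U s G φ - U s G φ'| + 1 ≤ R := (le_max_right _ _).trans (le_max_right _ _)
  have hR0 : 0 < R := by linarith
  have hW : W K < 2 * R + n := by
    have := le_abs_self (W K)
    have := neg_abs_le n
    linarith
  have hw := w_pos (s := s) hR0
  have h2a : 1 < √2 := by rw [Real.lt_sqrt (by norm_num)]; norm_num
  have hRR' : R < √2 * R := by nlinarith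
  have hR' : 2 * ρ₀ + B + C ≤ √2 * R := by linarith
  obtain ⟨r, hr1, hr2, hr3⟩ := h.exists_r hK.cpt hR' φ
  obtain ⟨r', hr1', hr2', hr3'⟩ := h.exists_r hK.cpt hR' φ'
  have k1 := h.second hK hR hW hr1 hr3
  have k2 := h.second hK hR hW hr1' hr3'
  have k3 := hT (2 * R + n) hW (r • ev φ) (r' • ev φ') (by rw [hr3]; linarith) (by rw [hr3, hr3'])
  rw [k3] at k1
  have k4 : |w s R / 2 * (U s G φ - U s G φ')| ≤ 2 * (Cd B C * w s R / R) := by
    rw [abs_le] at k1 k2 ⊢
    constructor <;> nlinarith [k1.1, k1.2, k2.1, k2.2]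
  rw [abs_mul, abs_of_pos (by positivity : 0 < w s R / 2)] at k4
  have k5 : |U s G φ - U s G φ'| ≤ 4 * Cd B C / R := by
    rw [le_div_iff₀ hR0]
    have : w s R / 2 * |U s G φ - U s G φ'| * R ≤ 2 * (Cd B C * w s R) := by
      have := mul_le_mul_of_nonneg_right k4 hR0.le
      calc w s R / 2 * |U s G φ - U s G φ'| * R ≤ 2 * (Cd B C * w s R / R) * R := this
        _ = 2 * (Cd B C * w s R) := by field_simp
    have h9 : w s R * (|U s G φ - U s G φ'| * R) ≤ w s R * (4 * Cd B C) := by linarith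
    exact le_of_mul_le_mul_left h9 hw
  have k6 : |U s G φ - U s G φ'| * R ≤ 4 * Cd B C := (le_div_iff₀ hR0).1 k5
  have k7 : 4 * Cd B C < |U s G φ - U s G φ'| * R := by
    have : 4 * Cd B C / |U s G φ - U s G φ'| < R := by linarith
    rw [div_lt_iff₀ hpos] at this
    linarith
  linarith

end Q188.Str
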